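import Mathlib
import Pool.Agent.Helper88.GF.Frame

/-!
# Two grammars for sequences of computations

Words `dol^M al^(n-1) b_1 .. b_n`, where a block `b_i` is a sequence of stack actions followed by
the letter `fin`.  The error grammar generates all such words in which some block fails on some
stack, or the number of input letters does not grow from a block to the next one.
-/

set_option autoImplicit false

namespace Pool.Agent.Helper91.GH

open Sum Pool.Agent.Helper88.GF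

/-- nonterminals -/
inductive N (K Z : Type) : Type
  | S : N K Z
  | T : N K Z
  | Eb : N K Z
  | Fr : N K Z
  | U : N K Z
  | X : N K Z
  | D0 : N K Z
  | D1 : N K Z
  | E : N K Z
  | Dk (k : K) : N K Z
  | B (k : K) : N K Z
  | A : N K Z
  | Bl : N K Z
  | In : N K Z
  | C (z : Z) : N K Z

/-- terminals; `lt none` is the input letter -/
inductive Tm (K Γ : Type) : Type
  | dol : Tm K Γ
  | al : Tm K Γ
  | fin : Tm K Γ
  | lt (l : Option (Act K Γ)) : Tm K Γ

instance nFinite {K Z : Type} [Finite K] [Finite Z] : Finite (N K Z) := by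
  let F : N K Z → Fin 12 ⊕ K ⊕ K ⊕ Z := fun a => match a with
    | .S => inl 0
    | .T => inl 1
    | .Eb => inl 2
    | .Fr => inl 3
    | .U => inl 4
    | .X => inl 5
    | .D0 => inl 6
    | .D1 => inl 7
    | .E => inl 8
    | .A => inl 9
    | .Bl => inl 10
    | .In => inl 11
    | .Dk k => inr (inl k)
    | .B k => inr (inr (inl k))
    | .C z => inr (inr (inr z))
  refine Finite.of_injective F ?_
  intro a b h
  cases a <;> cases b <;> simp_all [F]

instance tmFinite {K Γ : Type} [Finite K] [Finite Γ] : Finite (Tm K Γ) := by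
  let F : Tm K Γ → Fin 3 ⊕ Option (Act K Γ) := fun a => match a with
    | .dol => inl 0
    | .al => inl 1
    | .fin => inl 2
    | .lt l => inr l
  refine Finite.of_injective F ?_
  intro a b h
  cases a <;> cases b <;> simp_all [F]

section sem

variable {K Γ Z : Type} [DecidableEq K] [DecidableEq Γ]

/-- the action of a letter -/
def act (a₀ : Act K Γ) (l : Option (Act K Γ)) : Act K Γ := l.getD a₀

/-- run of a block on stack `k` -/
def runL (a₀ : Act K Γ) (k : K) (b : List (Option (Act K Γ))) (s : List Γ) : Option (List Γ) :=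
  run k (b.map (act a₀)) s

/-- number of input letters -/
def cnt (b : List (Option (Act K Γ))) : ℕ := b.countP (fun l => l.isNone)

/-- the word of a sequence of blocks -/
def flat (bs : List (List (Option (Act K Γ)))) : List (Tm K Γ) :=
  (bs.map fun b => b.map Tm.lt ++ [Tm.fin]).flatten

/-- pairing letters and blocks -/
def word (bs : List (List (Option (Act K Γ)))) : List (Tm K Γ) :=
  List.replicate (bs.length - 1) Tm.al ++ flat bs

/-- no errors -/
def Good (a₀ : Act K Γ) (bs : List (List (Option (Act K Γ)))) : Prop :=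
  (∀ b ∈ bs, ∀ k, runL a₀ k b [] ≠ none) ∧ bs.IsChain (fun b b' => cnt b < cnt b')

variable (K Γ Z) in
abbrev Ru : Type := N K Z × List (N K Z ⊕ Tm K Γ)

/-- terminal letter -/
abbrev tl (l : Option (Act K Γ)) : N K Z ⊕ Tm K Γ := inr (.lt l)
abbrev dl : N K Z ⊕ Tm K Γ := inr .dol
abbrev ta : N K Z ⊕ Tm K Γ := inr .al
abbrev tf : N K Z ⊕ Tm K Γ := inr .fin

variable (Z) in
/-- rules of the error grammar -/
inductive R0 (a₀ : Act K Γ) (i : Tm K Γ → ℕ) (M : ℕ) : Ru K Γ Z → Prop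
  | frame0 : R0 a₀ i M (.S, [dl, dl])
  | frame (t : Tm K Γ) (h : t ≠ .dol) : R0 a₀ i M (.S, List.replicate (i t + 2) dl ++ [inr t])
  | longE : R0 a₀ i M (.S, List.replicate M dl ++ [inl .Eb])
  | longT : R0 a₀ i M (.S, List.replicate M dl ++ [inl .T])
  | t1 (t : Tm K Γ) : R0 a₀ i M (.T, [inr t])
  | t2 (t : Tm K Γ) : R0 a₀ i M (.T, [inr t, inl .T])
  | eb1 : R0 a₀ i M (.Eb, [ta, inl .Eb, inl .U])
  | eb2 : R0 a₀ i M (.Eb, [ta, inl .Fr, inl .X])
  | eb3 : R0 a₀ i M (.Eb, [inl .X])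
  | eb4 : R0 a₀ i M (.Eb, [ta, ta, inl .Fr, inl .D0])
  | eb5 : R0 a₀ i M (.Eb, [ta, inl .D0])
  | fr1 : R0 a₀ i M (.Fr, [ta, inl .Fr, inl .U])
  | fr2 : R0 a₀ i M (.Fr, [inl .U])
  | u1 (l : Option (Act K Γ)) : R0 a₀ i M (.U, [tl l, inl .U])
  | u2 : R0 a₀ i M (.U, [tf])
  | x1 : R0 a₀ i M (.X, [inl .E, tf])
  | x2 (k : K) : R0 a₀ i M (.X, [inl (.Dk k), tf])
  | d0 : R0 a₀ i M (.D0, [inl .D1, tf])
  | d1 (l : Option (Act K Γ)) : R0 a₀ i M (.D1, [tl l, inl .D1])
  | d2 : R0 a₀ i M (.D1, [tl none, inl .D1, tl none])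
  | d3 (a : Act K Γ) : R0 a₀ i M (.D1, [inl .D1, tl (some a)])
  | d4 : R0 a₀ i M (.D1, [tf])
  | el (l : Option (Act K Γ)) : R0 a₀ i M (.E, [tl l, inl .E])
  | er (l : Option (Act K Γ)) : R0 a₀ i M (.E, [inl .E, tl l])
  | e1 (k : K) (y : Γ) (l x : Option (Act K Γ)) (hl : act a₀ l = .push k y)
      (h : BadTop k y (act a₀ x)) : R0 a₀ i M (.E, [tl l, tl x])
  | e2 (k : K) (y : Γ) (l x : Option (Act K Γ)) (hl : act a₀ l = .push k y)
      (h : BadTop k y (act a₀ x)) : R0 a₀ i M (.E, [tl l, inl (.B k), tl x])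
  | dr (k : K) (l : Option (Act K Γ)) : R0 a₀ i M (.Dk k, [inl (.Dk k), tl l])
  | dd1 (k : K) (x : Option (Act K Γ)) (h : eff k (act a₀ x) [] = none) :
      R0 a₀ i M (.Dk k, [tl x])
  | dd2 (k : K) (x : Option (Act K Γ)) (h : eff k (act a₀ x) [] = none) :
      R0 a₀ i M (.Dk k, [inl (.B k), tl x])
  | b0 (k : K) (x : Option (Act K Γ)) (h : Neutral k (act a₀ x)) : R0 a₀ i M (.B k, [tl x])
  | b1 (k : K) (x : Γ) (l l' : Option (Act K Γ)) (hl : act a₀ l = .push k x)
      (hl' : act a₀ l' = .pop k x) : R0 a₀ i M (.B k, [tl l, tl l'])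
  | b2 (k : K) (x : Γ) (l l' : Option (Act K Γ)) (hl : act a₀ l = .push k x)
      (hl' : act a₀ l' = .pop k x) : R0 a₀ i M (.B k, [tl l, inl (.B k), tl l'])
  | b3 (k : K) : R0 a₀ i M (.B k, [inl (.B k), inl (.B k)])

/-- the additional fixed rules -/
inductive R1 (Ctl : Z → Act K Γ → Option Z → Prop) (z₀ : Z) (M : ℕ) : Ru K Γ Z → Prop
  | longA : R1 Ctl z₀ M (.S, List.replicate M dl ++ [inl .A])
  | a1 : R1 Ctl z₀ M (.A, [ta, inl .A, inl .Bl])
  | a2 : R1 Ctl z₀ M (.A, [inl .Bl])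
  | in1 : R1 Ctl z₀ M (.In, [tl none, inl .In])
  | in2 (a : Act K Γ) (h : Ctl z₀ a none) : R1 Ctl z₀ M (.In, [tl (some a), tf])
  | in3 (a : Act K Γ) (z : Z) (h : Ctl z₀ a (some z)) :
      R1 Ctl z₀ M (.In, [tl (some a), inl (.C z)])
  | c2 (z' : Z) (a : Act K Γ) (h : Ctl z' a none) : R1 Ctl z₀ M (.C z', [tl (some a), tf])
  | c3 (z' : Z) (a : Act K Γ) (z : Z) (h : Ctl z' a (some z)) :
      R1 Ctl z₀ M (.C z', [tl (some a), inl (.C z)])

/-- the varying rule -/
def vR (pre : List (Act K Γ)) : Ru K Γ Z :=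
  (.Bl, (pre.map fun a => inr (.lt (some a))) ++ [inl .In])

end sem

end Pool.Agent.Helper91.GH
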