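import Mathlib
import Pool.Agent.Helper91.GH.Rules

set_option autoImplicit false

namespace Pool.Agent.Helper91.GH

open Sum Pool.Agent.Helper88.GF

section sem

variable {K Γ Z : Type} [DecidableEq K] [DecidableEq Γ]

variable (Ctl : Z → Act K Γ → Option Z → Prop) (z₀ : Z) (pre : List (Act K Γ))

/-- blocks of the machine -/
def IsBl (b : List (Option (Act K Γ))) : Prop :=
  ∃ (j : ℕ) (u : List (Act K Γ)),
    b = pre.map some ++ (List.replicate j none ++ u.map some) ∧ CPath Ctl z₀ u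

/-- meaning of the nonterminals -/
def Sem (a₀ : Act K Γ) : N K Z → List (Tm K Γ) → Prop
  | .S, _ => True
  | .T, _ => True
  | .Eb, w => ∃ bs, bs ≠ [] ∧ w = word bs ∧ ¬ Good a₀ bs
  | .Fr, w => ∃ bs, bs ≠ [] ∧ w = word bs
  | .U, w => ∃ b : List (Option (Act K Γ)), w = b.map .lt ++ [.fin]
  | .X, w => ∃ b : List (Option (Act K Γ)), w = b.map .lt ++ [.fin] ∧ ∃ k, runL a₀ k b [] = none
  | .D0, w => ∃ b b' : List (Option (Act K Γ)),
      w = b.map .lt ++ .fin :: (b'.map .lt ++ [.fin]) ∧ cnt b' ≤ cnt b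
  | .D1, w => ∃ b b' : List (Option (Act K Γ)),
      w = b.map .lt ++ .fin :: b'.map .lt ∧ cnt b' ≤ cnt b
  | .E, w => ∃ b : List (Option (Act K Γ)), w = b.map .lt ∧ ∃ k, ∀ s, runL a₀ k b s = none
  | .Dk k, w => ∃ b : List (Option (Act K Γ)), w = b.map .lt ∧ runL a₀ k b [] = none
  | .B k, w => ∃ b : List (Option (Act K Γ)), w = b.map .lt ∧
      ∀ s, runL a₀ k b s = none ∨ runL a₀ k b s = some s
  | .A, w => ∃ bs, bs ≠ [] ∧ w = word bs ∧ ∀ b ∈ bs, IsBl Ctl z₀ pre b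
  | .Bl, w => ∃ b : List (Option (Act K Γ)), w = b.map .lt ++ [.fin] ∧ IsBl Ctl z₀ pre b
  | .In, w => ∃ (j : ℕ) (u : List (Act K Γ)),
      w = (List.replicate j none ++ u.map some).map .lt ++ [.fin] ∧ CPath Ctl z₀ u
  | .C z, w => ∃ u : List (Act K Γ), w = (u.map some).map .lt ++ [.fin] ∧ CPath Ctl z u

omit [DecidableEq K] [DecidableEq Γ] in
lemma word_single (b : List (Option (Act K Γ))) : word [b] = b.map .lt ++ [.fin] := by
  simp [word, flat]

omit [DecidableEq K] [DecidableEq Γ] in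
lemma word_append {bs : List (List (Option (Act K Γ)))} (h : bs ≠ [])
    (b : List (Option (Act K Γ))) :
    word (bs ++ [b]) = .al :: (word bs ++ (b.map .lt ++ [.fin])) := by
  have hl : 0 < bs.length := List.length_pos_iff.2 h
  obtain ⟨n, hn⟩ : ∃ n, bs.length = n + 1 := ⟨bs.length - 1, by omega⟩
  simp [word, flat, hn, List.replicate_succ]

lemma good_left {a₀ : Act K Γ} {bs bs' : List (List (Option (Act K Γ)))}
    (h : Good a₀ (bs ++ bs')) : Good a₀ bs :=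
  ⟨fun b hb => h.1 b (List.mem_append_left _ hb), (List.isChain_append.1 h.2).1⟩

omit [DecidableEq K] [DecidableEq Γ] in
lemma cnt_append (b b' : List (Option (Act K Γ))) : cnt (b ++ b') = cnt b + cnt b' := by
  simp [cnt]

omit [DecidableEq K] [DecidableEq Γ] in
lemma cnt_cons (l : Option (Act K Γ)) (b : List (Option (Act K Γ))) :
    cnt (l :: b) = cnt [l] + cnt b := cnt_append [l] b

omit [DecidableEq K] [DecidableEq Γ] in
lemma cnt_none : cnt [(none : Option (Act K Γ))] = 1 := by simp [cnt]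

omit [DecidableEq K] [DecidableEq Γ] in
lemma cnt_some (a : Act K Γ) : cnt [some a] = 0 := by simp [cnt]

lemma runL_append (a₀ : Act K Γ) (k : K) (u v : List (Option (Act K Γ))) (s : List Γ) :
    runL a₀ k (u ++ v) s = (runL a₀ k u s).bind (runL a₀ k v) := by
  unfold runL
  rw [List.map_append, run_append]

lemma runL_cons (a₀ : Act K Γ) (k : K) (l : Option (Act K Γ)) (v : List (Option (Act K Γ)))
    (s : List Γ) : runL a₀ k (l :: v) s = (eff k (act a₀ l) s).bind (runL a₀ k v) := rfl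

lemma runL_single (a₀ : Act K Γ) (k : K) (l : Option (Act K Γ)) (s : List Γ) :
    runL a₀ k [l] s = eff k (act a₀ l) s := run_single k _ s

theorem sound0 {a₀ : Act K Γ} {i : Tm K Γ → ℕ} {M : ℕ} {A : N K Z}
    {β : List (N K Z ⊕ Tm K Γ)} {w : List (Tm K Γ)} (h : R0 Z a₀ i M (A, β))
    (hw : SemL (Sem Ctl z₀ pre a₀) β w) : Sem Ctl z₀ pre a₀ A w := by
  cases h with
  | frame0 => trivial
  | frame t h => trivial
  | longE => trivial
  | longT => trivial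
  | t1 t => trivial
  | t2 t => trivial
  | eb1 =>
    obtain ⟨v, rfl, u, v', rfl, ⟨bs, h1, rfl, h2⟩, u', v'', rfl, ⟨b, rfl⟩, rfl⟩ := hw
    refine ⟨bs ++ [b], by simp, ?_, fun hg => h2 (good_left hg)⟩
    rw [word_append h1]; simp
  | eb2 =>
    obtain ⟨v, rfl, u, v', rfl, ⟨bs, h1, rfl⟩, u', v'', rfl, ⟨b, rfl, k, hk⟩, rfl⟩ := hw
    refine ⟨bs ++ [b], by simp, ?_, fun hg => hg.1 b (by simp) k hk⟩
    rw [word_append h1]; simp
  | eb3 =>
    obtain ⟨u', v'', rfl, ⟨b, rfl, k, hk⟩, rfl⟩ := hw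
    refine ⟨[b], by simp, ?_, fun hg => hg.1 b (by simp) k hk⟩
    rw [word_single]; simp
  | eb4 =>
    obtain ⟨v, rfl, v1, rfl, u, v', rfl, ⟨bs, h1, rfl⟩, u', v'', rfl, ⟨b, b', rfl, hc⟩, rfl⟩ := hw
    refine ⟨(bs ++ [b]) ++ [b'], by simp, ?_, fun hg => ?_⟩
    · rw [word_append (by simp), word_append h1]; simp
    · have h2 := hg.2
      rw [List.isChain_append] at h2
      have := h2.2.2 b (by simp) b' (by simp)
      omega
  | eb5 =>
    obtain ⟨v, rfl, u', v'', rfl, ⟨b, b', rfl, hc⟩, rfl⟩ := hw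
    refine ⟨[b] ++ [b'], by simp, ?_, fun hg => ?_⟩
    · rw [word_append (by simp), word_single]; simp
    · have h2 := hg.2
      rw [List.isChain_append] at h2
      have := h2.2.2 b (by simp) b' (by simp)
      omega
  | fr1 =>
    obtain ⟨v, rfl, u, v', rfl, ⟨bs, h1, rfl⟩, u', v'', rfl, ⟨b, rfl⟩, rfl⟩ := hw
    refine ⟨bs ++ [b], by simp, ?_⟩
    rw [word_append h1]; simp
  | fr2 =>
    obtain ⟨u', v'', rfl, ⟨b, rfl⟩, rfl⟩ := hw
    refine ⟨[b], by simp, ?_⟩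
    rw [word_single]; simp
  | u1 l =>
    obtain ⟨v, rfl, u, v', rfl, ⟨b, rfl⟩, rfl⟩ := hw
    exact ⟨l :: b, by simp⟩
  | u2 =>
    obtain ⟨v, rfl, rfl⟩ := hw
    exact ⟨[], by simp⟩
  | x1 =>
    obtain ⟨u, v, rfl, ⟨b, rfl, k, hk⟩, v', rfl, rfl⟩ := hw
    exact ⟨b, rfl, k, hk []⟩
  | x2 k =>
    obtain ⟨u, v, rfl, ⟨b, rfl, hk⟩, v', rfl, rfl⟩ := hw
    exact ⟨b, rfl, k, hk⟩
  | d0 =>
    obtain ⟨u, v, rfl, ⟨b, b', rfl, hk⟩, v', rfl, rfl⟩ := hw
    exact ⟨b, b', by simp, hk⟩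
  | d1 l =>
    obtain ⟨v, rfl, u, v', rfl, ⟨b, b', rfl, hk⟩, rfl⟩ := hw
    refine ⟨l :: b, b', by simp, ?_⟩
    rw [cnt_cons]; omega
  | d2 =>
    obtain ⟨v, rfl, u, v', rfl, ⟨b, b', rfl, hk⟩, v'', rfl, rfl⟩ := hw
    refine ⟨none :: b, b' ++ [none], by simp, ?_⟩
    rw [cnt_cons, cnt_append]; omega
  | d3 a =>
    obtain ⟨u, v, rfl, ⟨b, b', rfl, hk⟩, v', rfl, rfl⟩ := hw
    refine ⟨b, b' ++ [some a], by simp, ?_⟩
    rw [cnt_append, cnt_some]; omega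
  | d4 =>
    obtain ⟨v, rfl, rfl⟩ := hw
    exact ⟨[], [], by simp, le_refl _⟩
  | el l =>
    obtain ⟨v, rfl, u, v', rfl, ⟨x, rfl, k, hk⟩, rfl⟩ := hw
    refine ⟨l :: x, by simp, k, fun s => ?_⟩
    rw [runL_cons]
    cases eff k (act a₀ l) s with
    | none => rfl
    | some t => exact hk t
  | er l =>
    obtain ⟨u, v, rfl, ⟨x, rfl, k, hk⟩, v', rfl, rfl⟩ := hw
    refine ⟨x ++ [l], by simp, k, fun s => ?_⟩
    rw [runL_append, hk s]; rfl
  | e1 k y l x hl h =>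
    obtain ⟨v, rfl, v', rfl, rfl⟩ := hw
    refine ⟨[l, x], rfl, k, fun s => ?_⟩
    rw [runL_cons, hl, eff_push, Option.bind_some, runL_single, h s]
  | e2 k y l x hl h =>
    obtain ⟨v, rfl, u, v', rfl, ⟨b, rfl, hb⟩, v'', rfl, rfl⟩ := hw
    refine ⟨l :: (b ++ [x]), by simp, k, fun s => ?_⟩
    rw [runL_cons, hl, eff_push, Option.bind_some, runL_append]
    rcases hb (y :: s) with h1 | h1
    · rw [h1]; rfl
    · rw [h1, Option.bind_some, runL_single, h s]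
  | dr k a =>
    obtain ⟨u, v, rfl, ⟨x, rfl, hk⟩, v', rfl, rfl⟩ := hw
    refine ⟨x ++ [a], by simp, ?_⟩
    rw [runL_append, hk]; rfl
  | dd1 k x h =>
    obtain ⟨v, rfl, rfl⟩ := hw
    exact ⟨[x], rfl, by rw [runL_single, h]⟩
  | dd2 k x h =>
    obtain ⟨u, v, rfl, ⟨b, rfl, hb⟩, v', rfl, rfl⟩ := hw
    refine ⟨b ++ [x], by simp, ?_⟩
    rw [runL_append]
    rcases hb [] with h1 | h1
    · rw [h1]; rfl
    · rw [h1, Option.bind_some, runL_single, h]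
  | b0 k x h =>
    obtain ⟨v, rfl, rfl⟩ := hw
    exact ⟨[x], rfl, fun s => by rw [runL_single]; exact h s⟩
  | b1 k x l l' hl hl' =>
    obtain ⟨v, rfl, v', rfl, rfl⟩ := hw
    refine ⟨[l, l'], rfl, fun s => Or.inr ?_⟩
    rw [runL_cons, hl, eff_push, Option.bind_some, runL_single, hl']
    simp [eff]
  | b2 k x l l' hl hl' =>
    obtain ⟨v, rfl, u, v', rfl, ⟨b, rfl, hb⟩, v'', rfl, rfl⟩ := hw
    refine ⟨l :: (b ++ [l']), by simp, fun s => ?_⟩
    rw [runL_cons, hl, eff_push, Option.bind_some, runL_append]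
    rcases hb (x :: s) with h1 | h1
    · rw [h1]; exact Or.inl rfl
    · rw [h1]; right
      rw [Option.bind_some, runL_single, hl']
      simp [eff]
  | b3 k =>
    obtain ⟨u, v, rfl, ⟨b, rfl, hb⟩, u', v', rfl, ⟨b', rfl, hb'⟩, rfl⟩ := hw
    refine ⟨b ++ b', by simp, fun s => ?_⟩
    rw [runL_append]
    rcases hb s with h1 | h1
    · rw [h1]; exact Or.inl rfl
    · rw [h1, Option.bind_some]; exact hb' s

theorem sound1 {a₀ : Act K Γ} {M : ℕ} {A : N K Z}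
    {β : List (N K Z ⊕ Tm K Γ)} {w : List (Tm K Γ)} (h : R1 Ctl z₀ M (A, β))
    (hw : SemL (Sem Ctl z₀ pre a₀) β w) : Sem Ctl z₀ pre a₀ A w := by
  cases h with
  | longA => trivial
  | a1 =>
    obtain ⟨v, rfl, u, v', rfl, ⟨bs, h1, rfl, h2⟩, u', v'', rfl, ⟨b, rfl, h3⟩, rfl⟩ := hw
    refine ⟨bs ++ [b], by simp, ?_, ?_⟩
    · rw [word_append h1]; simp
    · intro b' hb'
      rw [List.mem_append, List.mem_singleton] at hb'
      rcases hb' with hb' | rfl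
      · exact h2 b' hb'
      · exact h3
  | a2 =>
    obtain ⟨u', v'', rfl, ⟨b, rfl, h3⟩, rfl⟩ := hw
    refine ⟨[b], by simp, ?_, ?_⟩
    · rw [word_single]; simp
    · intro b' hb'
      rw [List.mem_singleton] at hb'
      subst hb'
      exact h3
  | in1 =>
    obtain ⟨v, rfl, u, v', rfl, ⟨j, x, rfl, hx⟩, rfl⟩ := hw
    exact ⟨j + 1, x, by simp [List.replicate_succ], hx⟩
  | in2 a h =>
    obtain ⟨v, rfl, v', rfl, rfl⟩ := hw
    exact ⟨0, [a], by simp, .last _ _ h⟩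
  | in3 a z h =>
    obtain ⟨v, rfl, u, v', rfl, ⟨x, rfl, hx⟩, rfl⟩ := hw
    exact ⟨0, a :: x, by simp, .step _ _ _ _ h hx⟩
  | c2 z' a h =>
    obtain ⟨v, rfl, v', rfl, rfl⟩ := hw
    exact ⟨[a], by simp, .last _ _ h⟩
  | c3 z' a z h =>
    obtain ⟨v, rfl, u, v', rfl, ⟨x, rfl, hx⟩, rfl⟩ := hw
    exact ⟨a :: x, by simp, .step _ _ _ _ h hx⟩

omit [DecidableEq K] [DecidableEq Γ] in
lemma semL_map {Sem' : N K Z → List (Tm K Γ) → Prop} (u : List (Act K Γ))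
    (β : List (N K Z ⊕ Tm K Γ)) (w : List (Tm K Γ))
    (h : SemL Sem' ((u.map fun a => inr (.lt (some a))) ++ β) w) :
    ∃ v, w = u.map (fun a => .lt (some a)) ++ v ∧ SemL Sem' β v := by
  have e : (u.map fun a => (inr (.lt (some a)) : N K Z ⊕ Tm K Γ)) =
      (u.map fun a => (Tm.lt (some a) : Tm K Γ)).map inr := by simp
  rw [e] at h
  exact semL_terminals _ _ _ h

theorem soundV {a₀ : Act K Γ} {w : List (Tm K Γ)}
    (hw : SemL (Sem Ctl z₀ pre a₀) (vR (Z := Z) pre).2 w) : Sem Ctl z₀ pre a₀ .Bl w := by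
  obtain ⟨v, rfl, u, v', rfl, ⟨j, x, rfl, hx⟩, rfl⟩ := semL_map _ _ _ hw
  exact ⟨pre.map some ++ (List.replicate j none ++ x.map some), by simp, j, x, rfl, hx⟩

/-- all rules -/
def RP (a₀ : Act K Γ) (i : Tm K Γ → ℕ) (M : ℕ) : Set (Ru K Γ Z) :=
  {p | R0 Z a₀ i M p ∨ R1 Ctl z₀ M p ∨ p = vR pre}

theorem sound {a₀ : Act K Γ} {i : Tm K Γ → ℕ} {M : ℕ} {A : N K Z} {w : List (Tm K Γ)}
    (h : GenL (RP Ctl z₀ pre a₀ i M) [inl A] w) : Sem Ctl z₀ pre a₀ A w := by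
  have := semL_of_genL (P := RP Ctl z₀ pre a₀ i M) (Sem Ctl z₀ pre a₀) ?_ h
  · obtain ⟨u, v', rfl, h1, rfl⟩ := this
    rw [List.append_nil]; exact h1
  · rintro A β w (hA | hA | hA) hw
    · exact sound0 Ctl z₀ pre hA hw
    · exact sound1 Ctl z₀ pre hA hw
    · have h1 : A = .Bl := congrArg Prod.fst hA
      have h2 : β = (vR (Z := Z) pre).2 := congrArg Prod.snd hA
      subst h1 h2
      exact soundV Ctl z₀ pre hw

end sem

end Pool.Agent.Helper91.GH
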