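import Mathlib
import Pool.Agent.Helper91.GH.Sem

set_option autoImplicit false

namespace Pool.Agent.Helper91.GH

open Sum Pool.Agent.Helper88.GF

section comp

variable {K Γ Z : Type} [DecidableEq K] [DecidableEq Γ]

variable (a₀ : Act K Γ) (i : Tm K Γ → ℕ) (M : ℕ)

variable (Z) in
/-- the rules of the error grammar as a set -/
def P0 : Set (Ru K Γ Z) := {p | R0 Z a₀ i M p}

/-- balanced words -/
def Ba (k : K) (u : List (Option (Act K Γ))) : Prop :=
  u = [] ∨ GenL (P0 Z a₀ i M) [inl (.B k)] (u.map .lt)

omit [DecidableEq K] [DecidableEq Γ] in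
lemma gco {P : Set (Ru K Γ Z)} {A : N K Z} {u w : List (Tm K Γ)}
    {β : List (N K Z ⊕ Tm K Γ)} (h : GenL P [inl A] u) (h' : GenL P β w) :
    GenL P (inl A :: β) (u ++ w) := GenL.append (α := [inl A]) h h'

lemma g0 {β : List (N K Z ⊕ Tm K Γ)} {A : N K Z} {w : List (Tm K Γ)}
    (h : R0 Z a₀ i M (A, β)) (hg : GenL (P0 Z a₀ i M) β w) : GenL (P0 Z a₀ i M) [inl A] w :=
  genL_single_iff.2 ⟨β, h, hg⟩

lemma ba_append {k : K} {u v : List (Option (Act K Γ))} (hu : Ba (Z := Z) a₀ i M k u)
    (hv : Ba (Z := Z) a₀ i M k v) : Ba (Z := Z) a₀ i M k (u ++ v) := by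
  rcases hu with rfl | hu
  · exact hv
  rcases hv with rfl | hv
  · rw [List.append_nil]; exact Or.inr hu
  · right
    rw [List.map_append]
    have h2 : GenL (P0 Z a₀ i M) [inl (.B k), inl (.B k)] (u.map .lt ++ v.map .lt) :=
      gco hu hv
    exact g0 a₀ i M (.b3 k) h2

/-- decomposition of a run along the resulting stack -/
inductive Dc (k : K) : List (Option (Act K Γ)) → List Γ → Prop
  | nil (u : List (Option (Act K Γ))) (h : Ba (Z := Z) a₀ i M k u) : Dc k u []
  | cons (u₁ u₂ : List (Option (Act K Γ))) (l : Option (Act K Γ)) (y : Γ) (s : List Γ)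
      (hl : act a₀ l = .push k y) (h₁ : Dc k u₁ s)
      (h₂ : Ba (Z := Z) a₀ i M k u₂) : Dc k (u₁ ++ l :: u₂) (y :: s)

lemma Dc.app {k : K} {u b : List (Option (Act K Γ))} {s : List Γ}
    (h : Dc (Z := Z) a₀ i M k u s)
    (hb : Ba (Z := Z) a₀ i M k b) : Dc (Z := Z) a₀ i M k (u ++ b) s := by
  cases h with
  | nil u h => exact .nil _ (ba_append a₀ i M h hb)
  | cons u₁ u₂ l y s hl h₁ h₂ =>
    rw [List.append_assoc, List.cons_append]
    exact .cons _ _ _ _ _ hl h₁ (ba_append a₀ i M h₂ hb)

lemma ba_neutral {k : K} {x : Option (Act K Γ)} (h : Neutral k (act a₀ x)) :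
    Ba (Z := Z) a₀ i M k [x] :=
  Or.inr (g0 a₀ i M (.b0 k x h) (.term _ _ _ .nil))

lemma dc_step {k : K} {u : List (Option (Act K Γ))} {s s' : List Γ} {x : Option (Act K Γ)}
    (h : Dc (Z := Z) a₀ i M k u s) (hx : eff k (act a₀ x) s = some s') :
    Dc (Z := Z) a₀ i M k (u ++ [x]) s' := by
  cases hax : act a₀ x with
  | push k' y =>
    rw [hax] at hx
    by_cases hk : k' = k
    · subst hk
      simp only [eff, if_true, Option.some.injEq] at hx
      subst hx
      exact .cons _ _ _ _ _ hax h (Or.inl rfl)
    · simp only [eff, if_neg hk, Option.some.injEq] at hx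
      subst hx
      exact h.app a₀ i M (ba_neutral a₀ i M fun s => Or.inr (by rw [hax]; simp [eff, hk]))
  | pop k' y =>
    rw [hax] at hx
    by_cases hk : k' = k
    · subst hk
      simp only [eff, if_true] at hx
      split_ifs at hx with hh
      rw [Option.some.injEq] at hx
      cases h with
      | nil u h => simp at hh
      | cons u₁ u₂ l z s hl h₁ h₂ =>
        simp only [List.head?_cons, Option.some.injEq] at hh
        subst hh
        simp only [List.tail_cons] at hx
        subst hx
        rw [List.append_assoc, List.cons_append]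
        refine h₁.app a₀ i M (Or.inr ?_)
        rcases h₂ with rfl | h₂
        · exact g0 a₀ i M (.b1 _ z _ _ hl hax) (.term _ _ _ (.term _ _ _ .nil))
        · rw [List.map_cons, List.map_append]
          exact g0 a₀ i M (.b2 _ z _ _ hl hax) (.term _ _ _ (gco h₂ (.term _ _ _ .nil)))
    · simp only [eff, if_neg hk, Option.some.injEq] at hx
      subst hx
      exact h.app a₀ i M (ba_neutral a₀ i M fun s => Or.inr (by rw [hax]; simp [eff, hk]))
  | peek k' y =>
    rw [hax] at hx
    have hs : s' = s := by
      simp only [eff] at hx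
      split_ifs at hx <;> simp_all
    subst hs
    refine h.app a₀ i M (ba_neutral a₀ i M fun s => ?_)
    rw [hax]
    simp only [eff]; split_ifs <;> simp
  | empty k' =>
    rw [hax] at hx
    have hs : s' = s := by
      simp only [eff] at hx
      split_ifs at hx <;> simp_all
    subst hs
    refine h.app a₀ i M (ba_neutral a₀ i M fun s => ?_)
    rw [hax]
    simp only [eff]; split_ifs <;> simp
  | nop =>
    rw [hax] at hx
    simp only [eff, Option.some.injEq] at hx
    subst hx
    exact h.app a₀ i M (ba_neutral a₀ i M fun s => Or.inr (by rw [hax]; rfl))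

lemma dc_of_run {k : K} {u : List (Option (Act K Γ))} : ∀ {s : List Γ},
    runL a₀ k u [] = some s → Dc (Z := Z) a₀ i M k u s := by
  induction u using List.reverseRecOn with
  | nil =>
    intro s h
    simp only [runL, List.map_nil, run, Option.some.injEq] at h
    subst h
    exact .nil _ (Or.inl rfl)
  | append_singleton u x ih =>
    intro s h
    rw [runL_append] at h
    cases hu : runL a₀ k u [] with
    | none => rw [hu] at h; simp at h
    | some t =>
      rw [hu, Option.bind_some, runL_single] at h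
      exact dc_step a₀ i M (ih hu) h

lemma first_failL {k : K} {v : List (Option (Act K Γ))} : ∀ {s : List Γ},
    runL a₀ k v s = none →
    ∃ u x v' t, v = u ++ x :: v' ∧ runL a₀ k u s = some t ∧ eff k (act a₀ x) t = none := by
  induction v with
  | nil => intro s h; simp [runL, run] at h
  | cons a v ih =>
    intro s h
    rw [runL_cons] at h
    cases ha : eff k (act a₀ a) s with
    | none => exact ⟨[], a, v, s, rfl, rfl, ha⟩
    | some t =>
      rw [ha, Option.bind_some] at h
      obtain ⟨u, x, v', t', rfl, h1, h2⟩ := ih h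
      exact ⟨a :: u, x, v', t', rfl, by rw [runL_cons, ha]; exact h1, h2⟩

lemma ee_left {v : List (Tm K Γ)} (h : GenL (P0 Z a₀ i M) [inl .E] v)
    (u : List (Option (Act K Γ))) :
    GenL (P0 Z a₀ i M) [inl .E] (u.map .lt ++ v) := by
  induction u with
  | nil => exact h
  | cons a u ih => exact g0 a₀ i M (.el a) (.term _ _ _ ih)

lemma ee_right {v : List (Tm K Γ)} (h : GenL (P0 Z a₀ i M) [inl .E] v)
    (u : List (Option (Act K Γ))) :
    GenL (P0 Z a₀ i M) [inl .E] (v ++ u.map .lt) := by
  induction u generalizing v with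
  | nil => simpa using h
  | cons a u ih =>
    have h1 : GenL (P0 Z a₀ i M) [inl .E] (v ++ [.lt a]) :=
      g0 a₀ i M (.er a) (gco h (.term _ _ _ .nil))
    have := ih h1
    simpa using this

lemma dd_right {k : K} {v : List (Tm K Γ)} (h : GenL (P0 Z a₀ i M) [inl (.Dk k)] v)
    (u : List (Option (Act K Γ))) : GenL (P0 Z a₀ i M) [inl (.Dk k)] (v ++ u.map .lt) := by
  induction u generalizing v with
  | nil => simpa using h
  | cons a u ih =>
    have h1 : GenL (P0 Z a₀ i M) [inl (.Dk k)] (v ++ [.lt a]) :=
      g0 a₀ i M (.dr k a) (gco h (.term _ _ _ .nil))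
    have := ih h1
    simpa using this

lemma gen_repl {P : Set (Ru K Γ Z)} (m : ℕ) (t : Tm K Γ) {β : List (N K Z ⊕ Tm K Γ)}
    {w : List (Tm K Γ)} (h : GenL P β w) :
    GenL P (List.replicate m (inr t) ++ β) (List.replicate m t ++ w) := by
  induction m with
  | zero => exact h
  | succ m ih =>
    rw [List.replicate_succ, List.replicate_succ]
    exact .term _ _ _ ih

theorem comp_X {k : K} {v : List (Option (Act K Γ))} (h : runL a₀ k v [] = none) :
    GenL (P0 Z a₀ i M) [inl .X] (v.map .lt ++ [.fin]) := by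
  obtain ⟨u, x, v', t, rfl, h1, h2⟩ := first_failL a₀ h
  have hd := dc_of_run (Z := Z) a₀ i M h1
  cases hd with
  | nil u hu =>
    have h3 : GenL (P0 Z a₀ i M) [inl (.Dk k)] ((u ++ [x]).map .lt) := by
      rcases hu with rfl | hu
      · exact g0 a₀ i M (.dd1 k x h2) (.term _ _ _ .nil)
      · rw [List.map_append]
        exact g0 a₀ i M (.dd2 k x h2) (gco hu (.term _ _ _ .nil))
    have h4 := dd_right a₀ i M h3 v'
    have h5 : (u ++ x :: v').map (Tm.lt : _ → Tm K Γ) = (u ++ [x]).map .lt ++ v'.map .lt := by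
      simp
    rw [h5]
    exact g0 a₀ i M (.x2 k) (gco h4 (.term _ _ _ .nil))
  | cons u₁ u₂ l y s hl h₁ h₂ =>
    have hb := badTop_of h2
    have h3 : GenL (P0 Z a₀ i M) [inl .E] ((l :: (u₂ ++ [x])).map .lt) := by
      rcases h₂ with rfl | h₂
      · exact g0 a₀ i M (.e1 k y l x hl hb) (.term _ _ _ (.term _ _ _ .nil))
      · rw [List.map_cons, List.map_append]
        exact g0 a₀ i M (.e2 k y l x hl hb) (.term _ _ _ (gco h₂ (.term _ _ _ .nil)))
    have h4 := ee_right a₀ i M (ee_left a₀ i M h3 u₁) v'
    have h5 : (u₁ ++ l :: u₂ ++ x :: v').map (Tm.lt : _ → Tm K Γ) =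
        u₁.map .lt ++ (l :: (u₂ ++ [x])).map .lt ++ v'.map .lt := by simp
    rw [h5]
    exact g0 a₀ i M .x1 (gco h4 (.term _ _ _ .nil))

theorem comp_U (b : List (Option (Act K Γ))) :
    GenL (P0 Z a₀ i M) [inl .U] (b.map .lt ++ [.fin]) := by
  induction b with
  | nil => exact g0 a₀ i M .u2 (.term _ _ _ .nil)
  | cons l b ih => exact g0 a₀ i M (.u1 l) (.term _ _ _ ih)

theorem comp_T {w : List (Tm K Γ)} (h : w ≠ []) : GenL (P0 Z a₀ i M) [inl .T] w := by
  induction w with
  | nil => exact absurd rfl h
  | cons t w ih =>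
    cases w with
    | nil => exact g0 a₀ i M (.t1 t) (.term _ _ _ .nil)
    | cons t' w => exact g0 a₀ i M (.t2 t) (.term _ _ _ (ih (by simp)))

lemma comp_D1 : ∀ (n : ℕ) (b b' : List (Option (Act K Γ))), b.length + b'.length = n →
    cnt b' ≤ cnt b → GenL (P0 Z a₀ i M) [inl .D1] (b.map .lt ++ .fin :: b'.map .lt) := by
  intro n
  induction n using Nat.strong_induction_on with
  | _ n ih =>
    intro b b' hn hc
    rcases List.eq_nil_or_concat b' with rfl | ⟨b₁, l, rfl⟩
    · cases b with
      | nil => exact g0 a₀ i M .d4 (.term _ _ _ .nil)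
      | cons l b =>
        refine g0 a₀ i M (.d1 l) (.term _ _ _ ?_)
        refine ih (n - 1) ?_ b [] ?_ ?_
        · simp only [List.length_cons, List.length_nil] at hn; omega
        · simp only [List.length_cons, List.length_nil] at hn ⊢; omega
        · simp [cnt]
    · rw [List.concat_eq_append] at hn hc ⊢
      rw [List.length_append, List.length_singleton] at hn
      rw [cnt_append] at hc
      cases l with
      | some a =>
        rw [cnt_some] at hc
        have h1 := ih (n - 1) (by omega) b b₁ (by omega) (by omega)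
        have h2 := g0 a₀ i M (.d3 a) (gco h1 (.term (Tm.lt (some a)) [] [] .nil))
        have e : b.map (Tm.lt : _ → Tm K Γ) ++ .fin :: (b₁ ++ [some a]).map .lt =
            b.map .lt ++ .fin :: b₁.map .lt ++ [.lt (some a)] := by simp
        rw [e]; exact h2
      | none =>
        rw [cnt_none] at hc
        cases b with
        | nil => simp [cnt] at hc
        | cons l b =>
          rw [List.length_cons] at hn
          cases l with
          | none =>
            rw [cnt_cons, cnt_none] at hc
            have h1 := ih (n - 2) (by omega) b b₁ (by omega) (by omega)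
            have h2 := g0 a₀ i M .d2
              (.term (Tm.lt none) _ _ (gco h1 (.term (Tm.lt none) [] [] .nil)))
            have e : (none :: b).map (Tm.lt : _ → Tm K Γ) ++ .fin :: (b₁ ++ [none]).map .lt =
                .lt none :: (b.map .lt ++ .fin :: b₁.map .lt ++ [.lt none]) := by simp
            rw [e]; exact h2
          | some a =>
            rw [cnt_cons, cnt_some] at hc
            refine g0 a₀ i M (.d1 (some a)) (.term _ _ _ ?_)
            refine ih (n - 1) (by omega) b (b₁ ++ [none]) ?_ ?_
            · rw [List.length_append, List.length_singleton]; omega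
            · rw [cnt_append, cnt_none]; omega

theorem comp_D0 {b b' : List (Option (Act K Γ))} (h : cnt b' ≤ cnt b) :
    GenL (P0 Z a₀ i M) [inl .D0] ((b.map .lt ++ [.fin]) ++ (b'.map .lt ++ [.fin])) := by
  have h1 := comp_D1 (Z := Z) a₀ i M _ b b' rfl h
  have h2 := g0 a₀ i M .d0 (gco h1 (.term Tm.fin [] [] .nil))
  have e : (b.map (Tm.lt : _ → Tm K Γ) ++ [.fin]) ++ (b'.map .lt ++ [.fin]) =
      b.map .lt ++ .fin :: b'.map .lt ++ [.fin] := by simp
  rw [e]; exact h2

end comp

end Pool.Agent.Helper91.GH
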