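import Mathlib
import Pool.Agent.Helper91.GH.Comp

/-!
# Leftmost derivations through short forms, and products of a grammar with them
-/

set_option autoImplicit false

namespace Pool.Agent.Helper91.GH

open Sum Pool.Agent.Helper88.GF

/-- leftmost expansions of nonterminals through forms of length at most `Lb` -/
inductive Exp (P : Set Pr) (Lb : ℕ) : St → St → Prop
  | refl (p : St) : Exp P Lb p p
  | step (A : ℕ) (α β r : St) (hA : (A, α) ∈ P) (hl : (α ++ β).length ≤ Lb)
      (h : Exp P Lb (α ++ β) r) : Exp P Lb (inl A :: β) r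

/-- symbols on right-hand sides -/
def Al (P : Set Pr) : Set (ℕ ⊕ ℕ) := {x | ∃ p ∈ P, x ∈ p.2}

/-- the states -/
def Qf (P : Set Pr) (Lb : ℕ) : Set St := {q | q.length ≤ Lb ∧ ∀ x ∈ q, x ∈ Al P}

/-- paths -/
def Pth (P : Set Pr) (Lb : ℕ) : St → List ℕ → St → Prop
  | p, [], q => p = q
  | p, a :: w, q => ∃ r, Exp P Lb p (inr a :: r) ∧ Pth P Lb r w q

section forms

variable {P : Set Pr} {Lb : ℕ}

lemma exp_sound {p r : St} {w : List ℕ} (h : Exp P Lb p r) (hg : GenL P r w) : GenL P p w := by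
  induction h with
  | refl => exact hg
  | step A α β r hA hl _ ih =>
    obtain ⟨u, v, rfl, h1, h2⟩ := (ih hg).split
    exact .nt _ _ _ _ _ hA h1 h2

lemma exp_mem {p r : St} (h : Exp P Lb p r) (hp : p ∈ Qf P Lb) : r ∈ Qf P Lb := by
  induction h with
  | refl => exact hp
  | step A α β r hA hl _ ih =>
    apply ih
    refine ⟨hl, fun x hx => ?_⟩
    rw [List.mem_append] at hx
    rcases hx with hx | hx
    · exact ⟨_, hA, hx⟩
    · exact hp.2 x (List.mem_cons_of_mem _ hx)

lemma qf_tail {x : ℕ ⊕ ℕ} {r : St} (h : x :: r ∈ Qf P Lb) : r ∈ Qf P Lb :=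
  ⟨by have := h.1; rw [List.length_cons] at this; omega,
    fun y hy => h.2 y (List.mem_cons_of_mem _ hy)⟩

lemma exp_tail {p r : St} {x : ℕ ⊕ ℕ} (h : Exp P Lb p (x :: r)) (hp : p ∈ Qf P Lb) :
    r ∈ Qf P Lb := qf_tail (exp_mem h hp)

lemma pth_sound {p q : St} {w : List ℕ} (h : Pth P Lb p w q) : ∀ {v : List ℕ}, GenL P q v →
    GenL P p (w ++ v) := by
  induction w generalizing p with
  | nil =>
    intro v hv
    have : p = q := h
    subst this
    exact hv
  | cons a w ih =>
    intro v hv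
    obtain ⟨r, h1, h2⟩ := h
    exact exp_sound h1 (.term _ _ _ (ih h2 hv))

lemma pth_nil_sound {p : St} {w : List ℕ} (h : Pth P Lb p w []) : GenL P p w := by
  have := pth_sound h .nil
  rwa [List.append_nil] at this

lemma pth_append {p q : St} {u v : List ℕ} :
    Pth P Lb p (u ++ v) q ↔ ∃ r, Pth P Lb p u r ∧ Pth P Lb r v q := by
  induction u generalizing p with
  | nil => simp [Pth]
  | cons a u ih =>
    simp only [List.cons_append, Pth, ih]
    constructor
    · rintro ⟨r, h, s, h1, h2⟩; exact ⟨s, ⟨r, h, h1⟩, h2⟩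
    · rintro ⟨s, ⟨r, h, h1⟩, h2⟩; exact ⟨r, h, s, h1, h2⟩

lemma pth_mem {p q : St} {w : List ℕ} (hp : p ∈ Qf P Lb) (h : Pth P Lb p w q) :
    q ∈ Qf P Lb := by
  induction w generalizing p with
  | nil => exact h ▸ hp
  | cons a w ih =>
    obtain ⟨r, hr, h⟩ := h
    exact ih (exp_tail hr hp) h

lemma pth_expand {A : ℕ} {α β q : St} {x : List ℕ} (hA : (A, α) ∈ P)
    (hl : (α ++ β).length ≤ Lb) (hx : x ≠ []) (h : Pth P Lb (α ++ β) x q) :
    Pth P Lb (inl A :: β) x q := by
  cases x with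
  | nil => exact absurd rfl hx
  | cons a x =>
    obtain ⟨r, h1, h2⟩ := h
    exact ⟨r, .step _ _ _ _ hA hl h1, h2⟩

lemma pth_term {a : ℕ} {β q : St} {x : List ℕ} (h : Pth P Lb β x q) :
    Pth P Lb (inr a :: β) (a :: x) q := ⟨β, .refl _, h⟩

lemma genL_ne_nil (hP : ∀ p ∈ P, p.2 ≠ []) {α : St} {w : List ℕ} (h : GenL P α w) :
    α ≠ [] → w ≠ [] := by
  induction h with
  | nil => exact fun h => absurd rfl h
  | term a β w _ _ => intro _; simp
  | nt A α β u w hA _ _ ih₁ ih₂ =>
    intro _ hh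
    exact ih₁ (hP _ hA) (List.append_eq_nil_iff.1 hh).1

lemma finite_lists {α : Type} {s : Set α} (hs : s.Finite) (b : ℕ) :
    {l : List α | l.length ≤ b ∧ ∀ x ∈ l, x ∈ s}.Finite := by
  have := hs.to_subtype
  have h1 : {l : List s | l.length ≤ b}.Finite := List.finite_length_le _ b
  refine (h1.image (List.map Subtype.val)).subset ?_
  rintro l ⟨hl, hm⟩
  refine ⟨l.attach.map fun x => ⟨x.1, hm x.1 x.2⟩, by simpa using hl, ?_⟩
  simp

lemma al_finite (h : P.Finite) : (Al P).Finite := by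
  have : Al P = ⋃ p ∈ P, {x | x ∈ p.2} := by
    ext s; simp [Al]
  rw [this]
  exact h.biUnion fun p _ => List.finite_toSet _

lemma qf_finite (h : P.Finite) : (Qf P Lb).Finite := finite_lists (al_finite h) Lb

end forms

/-- nonterminals of the new interpretation -/
inductive NN (K Z : Type) : Type
  | old (X : ℕ) : NN K Z
  | eb (X : ℕ) : NN K Z
  | fr (X : ℕ) : NN K Z
  | tr (p : St) (Y : N K Z) (q : St) : NN K Z

instance nnCountable {K Z : Type} [Finite K] [Finite Z] : Countable (NN K Z) := by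
  let F : NN K Z → ℕ ⊕ ℕ ⊕ ℕ ⊕ (St × N K Z × St) := fun a => match a with
    | .old X => inl X
    | .eb X => inr (inl X)
    | .fr X => inr (inr (inl X))
    | .tr p Y q => inr (inr (inr (p, Y, q)))
  refine Function.Injective.countable (f := F) ?_
  intro a b h
  cases a <;> cases b <;> simp_all [F]

section lift

variable {K Γ Z : Type}

variable (P : Set Pr) (Lb : ℕ) (g : ℕ → ℕ) (eT : Tm K Γ → ℕ)

/-- lifts of a sentential form along paths -/
def Lf : St → List (N K Z ⊕ Tm K Γ) → List (NN K Z ⊕ ℕ) → St → Prop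
  | p, [], [], q => p = q
  | p, inr t :: δ, inr a :: γ, q => g a = eT t ∧ ∃ r, Exp P Lb p (inr a :: r) ∧ Lf r δ γ q
  | p, inl Y :: δ, inl (.tr p' Y' r) :: γ, q => p' = p ∧ Y' = Y ∧ r ∈ Qf P Lb ∧ Lf r δ γ q
  | _, _, _, _ => False

variable {P Lb g eT}

lemma lf_length {δ : List (N K Z ⊕ Tm K Γ)} : ∀ {p q : St} {γ : List (NN K Z ⊕ ℕ)},
    Lf P Lb g eT p δ γ q → γ.length = δ.length := by
  induction δ with
  | nil =>
    intro p q γ h
    cases γ with
    | nil => rfl
    | cons x γ => simp [Lf] at h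
  | cons y δ ih =>
    intro p q γ h
    cases y with
    | inr a =>
      cases γ with
      | nil => simp [Lf] at h
      | cons x γ =>
        cases x with
        | inl A => simp [Lf] at h
        | inr a' =>
          obtain ⟨h0, r, h1, h2⟩ := h
          rw [List.length_cons, ih h2, List.length_cons]
    | inl A =>
      cases γ with
      | nil => simp [Lf] at h
      | cons x γ =>
        rcases x with (B | B | B | ⟨p', A', r⟩) | a
        · simp [Lf] at h
        · simp [Lf] at h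
        · simp [Lf] at h
        · obtain ⟨rfl, rfl, h1, h2⟩ := h
          rw [List.length_cons, ih h2, List.length_cons]
        · simp [Lf] at h

/-- symbols of lifts -/
lemma lf_mem {δ : List (N K Z ⊕ Tm K Γ)} : ∀ {p q : St} {γ : List (NN K Z ⊕ ℕ)},
    Lf P Lb g eT p δ γ q → p ∈ Qf P Lb → q ∈ Qf P Lb ∧ ∀ x ∈ γ,
      (∃ a, x = inr a ∧ inr a ∈ Al P) ∨ ∃ p' Y r, x = inl (.tr p' Y r) ∧ p' ∈ Qf P Lb ∧
        r ∈ Qf P Lb := by
  induction δ with
  | nil =>
    intro p q γ h hp
    cases γ with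
    | nil =>
      have : p = q := h
      subst this
      exact ⟨hp, by simp⟩
    | cons x γ => simp [Lf] at h
  | cons y δ ih =>
    intro p q γ h hp
    cases y with
    | inr a =>
      cases γ with
      | nil => simp [Lf] at h
      | cons x γ =>
        cases x with
        | inl A => simp [Lf] at h
        | inr a' =>
          obtain ⟨h0, r, h1, h2⟩ := h
          obtain ⟨h3, h4⟩ := ih h2 (exp_tail h1 hp)
          refine ⟨h3, fun x hx => ?_⟩
          rw [List.mem_cons] at hx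
          rcases hx with rfl | hx
          · exact Or.inl ⟨a', rfl, (exp_mem h1 hp).2 _ List.mem_cons_self⟩
          · exact h4 x hx
    | inl A =>
      cases γ with
      | nil => simp [Lf] at h
      | cons x γ =>
        rcases x with (B | B | B | ⟨p', A', r⟩) | a
        · simp [Lf] at h
        · simp [Lf] at h
        · simp [Lf] at h
        · obtain ⟨rfl, rfl, h1, h2⟩ := h
          obtain ⟨h3, h4⟩ := ih h2 h1
          refine ⟨h3, fun x hx => ?_⟩
          rw [List.mem_cons] at hx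
          rcases hx with rfl | hx
          · exact Or.inr ⟨_, _, _, rfl, hp, h1⟩
          · exact h4 x hx
        · simp [Lf] at h

/-- images of lifts -/
lemma lf_map {eN : N K Z → ℕ} (F : NN K Z → ℕ) (hF : ∀ p Y q, F (.tr p Y q) = eN Y)
    {δ : List (N K Z ⊕ Tm K Γ)} : ∀ {p q : St} {γ : List (NN K Z ⊕ ℕ)},
    Lf P Lb g eT p δ γ q → γ.map (Sum.map F g) = δ.map (Sum.map eN eT) := by
  induction δ with
  | nil =>
    intro p q γ h
    cases γ with
    | nil => rfl
    | cons x γ => simp [Lf] at h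
  | cons y δ ih =>
    intro p q γ h
    cases y with
    | inr a =>
      cases γ with
      | nil => simp [Lf] at h
      | cons x γ =>
        cases x with
        | inl A => simp [Lf] at h
        | inr a' =>
          obtain ⟨h0, r, h1, h2⟩ := h
          rw [List.map_cons, List.map_cons, ih h2, Sum.map_inr, Sum.map_inr, h0]
    | inl A =>
      cases γ with
      | nil => simp [Lf] at h
      | cons x γ =>
        rcases x with (B | B | B | ⟨p', A', r⟩) | a
        · simp [Lf] at h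
        · simp [Lf] at h
        · simp [Lf] at h
        · obtain ⟨rfl, rfl, h1, h2⟩ := h
          rw [List.map_cons, List.map_cons, ih h2, Sum.map_inl, Sum.map_inl, hF]
        · simp [Lf] at h

/-- soundness of lifts -/
lemma lf_sound {Sm : NN K Z → List ℕ → Prop}
    (hS : ∀ p Y q w, Sm (.tr p Y q) w → Pth P Lb p w q)
    {δ : List (N K Z ⊕ Tm K Γ)} : ∀ {p q : St} {γ : List (NN K Z ⊕ ℕ)} {w : List ℕ},
    Lf P Lb g eT p δ γ q → SemL Sm γ w → Pth P Lb p w q := by
  induction δ with
  | nil =>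
    intro p q γ w h hw
    cases γ with
    | nil =>
      have h1 : p = q := h
      have h2 : w = [] := hw
      subst h1 h2
      rfl
    | cons x γ => simp [Lf] at h
  | cons y δ ih =>
    intro p q γ w h hw
    cases y with
    | inr a =>
      cases γ with
      | nil => simp [Lf] at h
      | cons x γ =>
        cases x with
        | inl A => simp [Lf] at h
        | inr a' =>
          obtain ⟨h0, r, h1, h2⟩ := h
          obtain ⟨v, rfl, hv⟩ := hw
          exact ⟨r, h1, ih h2 hv⟩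
    | inl A =>
      cases γ with
      | nil => simp [Lf] at h
      | cons x γ =>
        rcases x with (B | B | B | ⟨p', A', r⟩) | a
        · simp [Lf] at h
        · simp [Lf] at h
        · simp [Lf] at h
        · obtain ⟨rfl, rfl, h1, h2⟩ := h
          obtain ⟨u, v, rfl, hu, hv⟩ := hw
          exact pth_append.2 ⟨r, hS _ _ _ _ hu, ih h2 hv⟩
        · simp [Lf] at h

/-- completeness of lifts -/
theorem lf_complete {R : Set (Ru K Γ Z)} {PP : Set (NN K Z × List (NN K Z ⊕ ℕ))}
    (hPP : ∀ p Y q δ γ, (Y, δ) ∈ R → p ∈ Qf P Lb → Lf P Lb g eT p δ γ q →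
      ((.tr p Y q : NN K Z), γ) ∈ PP)
    {δ : List (N K Z ⊕ Tm K Γ)} {v : List (Tm K Γ)} (h : GenL R δ v) :
    ∀ (p q : St) (w : List ℕ), w.map g = v.map eT → p ∈ Qf P Lb → Pth P Lb p w q →
      ∃ γ, Lf P Lb g eT p δ γ q ∧ GenL PP γ w := by
  induction h with
  | nil =>
    intro p q w hw hp hpath
    have : w = [] := by simpa using hw
    subst this
    exact ⟨[], hpath, .nil⟩
  | term a β v _ ih =>
    intro p q w hw hp hpath
    cases w with
    | nil => simp at hw
    | cons b w =>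
      rw [List.map_cons, List.map_cons, List.cons.injEq] at hw
      obtain ⟨r, h1, h2⟩ := hpath
      obtain ⟨γ, h3, h4⟩ := ih r q w hw.2 (exp_tail h1 hp) h2
      exact ⟨inr b :: γ, ⟨hw.1, r, h1, h3⟩, .term _ _ _ h4⟩
  | nt A α β u v hA _ _ ih₁ ih₂ =>
    intro p q w hw hp hpath
    rw [List.map_append] at hw
    obtain ⟨w₁, w₂, rfl, h1, h2⟩ := List.map_eq_append_iff.1 hw
    obtain ⟨r, h3, h4⟩ := pth_append.1 hpath
    have hr : r ∈ Qf P Lb := pth_mem hp h3
    obtain ⟨γ₁, h5, h6⟩ := ih₁ p r w₁ h1 hp h3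
    obtain ⟨γ₂, h7, h8⟩ := ih₂ r q w₂ h2 hr h4
    exact ⟨inl (.tr p A r) :: γ₂, ⟨rfl, rfl, hr, h7⟩,
      .nt _ _ _ _ _ (hPP _ _ _ _ _ hA hp h5) h6 h8⟩

theorem gen_tr {R : Set (Ru K Γ Z)} {PP : Set (NN K Z × List (NN K Z ⊕ ℕ))}
    (hPP : ∀ p Y q δ γ, (Y, δ) ∈ R → p ∈ Qf P Lb → Lf P Lb g eT p δ γ q →
      ((.tr p Y q : NN K Z), γ) ∈ PP) {Y : N K Z} {v : List (Tm K Γ)}
    (h : GenL R [inl Y] v) {p q : St} {w : List ℕ} (hw : w.map g = v.map eT)
    (hp : p ∈ Qf P Lb) (hpath : Pth P Lb p w q) : GenL PP [inl (.tr p Y q)] w := by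
  obtain ⟨δ, hδ, h1⟩ := genL_single_iff.1 h
  obtain ⟨γ, h2, h3⟩ := lf_complete hPP h1 p q w hw hp hpath
  exact genL_single_iff.2 ⟨γ, hPP _ _ _ _ _ hδ hp h2, h3⟩

end lift

end Pool.Agent.Helper91.GH
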