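import Mathlib
import Pool.Agent.Helper91.GH.Forms

/-!
# Derivations of sequences of blocks in an interpretation
-/

set_option autoImplicit false

namespace Pool.Agent.Helper91.GH

open Sum Pool.Agent.Helper88.GF

section blocks

variable {K Γ Z : Type} [DecidableEq K] [DecidableEq Γ]

/-- the productions `P` are mapped to the rules -/
def Hint (Ctl : Z → Act K Γ → Option Z → Prop) (z₀ : Z) (pre : List (Act K Γ)) (a₀ : Act K Γ)
    (i : Tm K Γ → ℕ) (M : ℕ) (P : Set Pr) (f g : ℕ → ℕ) (eN : N K Z → ℕ) (eT : Tm K Γ → ℕ) :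
    Prop :=
  ∀ X β, (X, β) ∈ P → ∃ Y δ, (Y, δ) ∈ RP Ctl z₀ pre a₀ i M ∧ f X = eN Y ∧
    β.map (Sum.map f g) = δ.map (Sum.map eN eT)

variable {Ctl : Z → Act K Γ → Option Z → Prop} {z₀ : Z} {pre : List (Act K Γ)} {a₀ : Act K Γ}
  {i : Tm K Γ → ℕ} {M : ℕ} {P : Set Pr} {f g : ℕ → ℕ} {eN : N K Z → ℕ} {eT : Tm K Γ → ℕ}

theorem transfer (hN : Function.Injective eN) (hint : Hint Ctl z₀ pre a₀ i M P f g eN eT)
    {α : St} {w : List ℕ} (h : GenL P α w) {δ : List (N K Z ⊕ Tm K Γ)}
    (hδ : α.map (Sum.map f g) = δ.map (Sum.map eN eT)) :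
    ∃ v, w.map g = v.map eT ∧ GenL (RP Ctl z₀ pre a₀ i M) δ v := by
  have h1 := h.map (P' := (fun p : Ru K Γ Z => (eN p.1, p.2.map (Sum.map eN eT))) ''
    RP Ctl z₀ pre a₀ i M) f g (fun X β hX => by
      obtain ⟨Y, δ, h1, h2, h3⟩ := hint X β hX
      exact ⟨(Y, δ), h1, by rw [h2, h3]⟩)
  rw [hδ] at h1
  exact GenL.of_map eN eT hN h1

/-- nonterminals of blocks -/
def isC : N K Z → Prop
  | .Bl => True
  | .In => True
  | .C _ => True
  | _ => False

/-- right-linear forms of rules -/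
def RLi : List (N K Z ⊕ Tm K Γ) → Prop
  | [] => True
  | inr _ :: δ => RLi δ
  | inl Y :: δ => δ = [] ∧ isC Y

/-- right-linear forms of productions -/
def RLf (f : ℕ → ℕ) (eN : N K Z → ℕ) : St → Prop
  | [] => True
  | inr _ :: α => RLf f eN α
  | inl X :: α => α = [] ∧ ∃ Y, f X = eN Y ∧ isC Y

omit [DecidableEq K] [DecidableEq Γ] in
lemma rlf_of {α : St} : ∀ {δ : List (N K Z ⊕ Tm K Γ)},
    α.map (Sum.map f g) = δ.map (Sum.map eN eT) → RLi δ → RLf f eN α := by
  induction α with
  | nil => intro δ _ _; trivial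
  | cons x α ih =>
    intro δ h hr
    cases δ with
    | nil => simp at h
    | cons y δ =>
      rw [List.map_cons, List.map_cons, List.cons.injEq] at h
      obtain ⟨h1, h2⟩ := h
      cases x with
      | inl X =>
        cases y with
        | inr t => simp at h1
        | inl Y =>
          obtain ⟨rfl, hY⟩ := hr
          rw [List.map_nil, List.map_eq_nil_iff] at h2
          rw [Sum.map_inl, Sum.map_inl, inl.injEq] at h1
          exact ⟨h2, Y, h1, hY⟩
      | inr a =>
        cases y with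
        | inl Y => simp at h1
        | inr t => exact ih h2 hr

omit [DecidableEq K] [DecidableEq Γ] in
lemma rli_pre (pre : List (Act K Γ)) {δ : List (N K Z ⊕ Tm K Γ)} (h : RLi δ) :
    RLi ((pre.map fun a => (inr (.lt (some a)) : N K Z ⊕ Tm K Γ)) ++ δ) := by
  induction pre with
  | nil => exact h
  | cons a pre ih => exact ih

lemma rli_rule {Y : N K Z} {δ : List (N K Z ⊕ Tm K Γ)} (h : (Y, δ) ∈ RP Ctl z₀ pre a₀ i M)
    (hY : isC Y) : RLi δ := by
  rcases h with h | h | h
  · cases h <;> exact absurd hY id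
  · cases h with
    | longA => exact absurd hY id
    | a1 => exact absurd hY id
    | a2 => exact absurd hY id
    | in1 => exact ⟨rfl, trivial⟩
    | in2 a h => trivial
    | in3 a z h => exact ⟨rfl, trivial⟩
    | c2 z' a h => trivial
    | c3 z' a z h => exact ⟨rfl, trivial⟩
  · have h2 : δ = (vR (Z := Z) pre).2 := congrArg Prod.snd h
    subst h2
    exact rli_pre pre ⟨rfl, trivial⟩

lemma rlf_prod (hN : Function.Injective eN) (hint : Hint Ctl z₀ pre a₀ i M P f g eN eT)
    {X : ℕ} {γ : St} (h : (X, γ) ∈ P) {Y : N K Z} (hX : f X = eN Y) (hY : isC Y) :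
    RLf f eN γ := by
  obtain ⟨Y', δ, h1, h2, h3⟩ := hint X γ h
  have : Y' = Y := hN (by rw [← h2, hX])
  subst this
  exact rlf_of h3 (rli_rule h1 hY)

theorem pth_form (hN : Function.Injective eN) (hint : Hint Ctl z₀ pre a₀ i M P f g eN eT)
    {m H Lb : ℕ} (hm : ∀ p ∈ P, p.2.length ≤ m) (hne : ∀ p ∈ P, p.2 ≠ [])
    (hLb : H + m + 3 ≤ Lb) {α : St} {v : List ℕ} (h : GenL P α v) :
    RLf f eN α → ∀ (β q : St) (w : List ℕ), β.length ≤ H → Pth P Lb β w q →
      Pth P Lb (α ++ β) (v ++ w) q := by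
  induction h with
  | nil => intro _ β q w _ hp; exact hp
  | term a α v _ ih => intro hr β q w hβ hp; exact pth_term (ih hr β q w hβ hp)
  | nt X γ α u v hX h₁ h₂ ih₁ ih₂ =>
    intro hr β q w hβ hp
    obtain ⟨rfl, Y, hY, hC⟩ := hr
    rw [genL_nil_iff] at h₂
    subst h₂
    rw [List.append_nil]
    have h3 := ih₁ (rlf_prod hN hint hX hY hC) β q w hβ hp
    show Pth P Lb (inl X :: β) (u ++ w) q
    refine pth_expand hX ?_ ?_ h3
    · have := hm _ hX
      rw [List.length_append]
      simp only at this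
      omega
    · have := genL_ne_nil hne h₁ (hne _ hX)
      intro h4
      exact this (List.append_eq_nil_iff.1 h4).1

/-- a block -/
def BlW (Ctl : Z → Act K Γ → Option Z → Prop) (z₀ : Z) (pre : List (Act K Γ)) (P : Set Pr)
    (f g : ℕ → ℕ) (eN : N K Z → ℕ) (eT : Tm K Γ → ℕ) (Xb : ℕ) (v : List ℕ)
    (b : List (Option (Act K Γ))) : Prop :=
  f Xb = eN .Bl ∧ GenL P [inl Xb] v ∧ v.map g = (b.map Tm.lt ++ [Tm.fin]).map eT ∧
    IsBl Ctl z₀ pre b

/-- decomposition of the derivations from nonterminals over `A` -/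
inductive DA (Ctl : Z → Act K Γ → Option Z → Prop) (z₀ : Z) (pre : List (Act K Γ)) (P : Set Pr)
    (f g : ℕ → ℕ) (eN : N K Z → ℕ) (eT : Tm K Γ → ℕ) :
    ℕ → List ℕ → List (List (Option (Act K Γ))) → Prop
  | base (X Xb : ℕ) (v : List ℕ) (b : List (Option (Act K Γ))) (hX : (X, [inl Xb]) ∈ P)
      (hb : BlW Ctl z₀ pre P f g eN eT Xb v b) : DA Ctl z₀ pre P f g eN eT X v [b]
  | step (X a X' Xb : ℕ) (v v' : List ℕ) (bs : List (List (Option (Act K Γ))))
      (b : List (Option (Act K Γ))) (hX : (X, [inr a, inl X', inl Xb]) ∈ P)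
      (ha : g a = eT .al) (h : DA Ctl z₀ pre P f g eN eT X' v bs)
      (hb : BlW Ctl z₀ pre P f g eN eT Xb v' b) :
      DA Ctl z₀ pre P f g eN eT X (a :: (v ++ v')) (bs ++ [b])

lemma blW_of_gen (hN : Function.Injective eN) (hint : Hint Ctl z₀ pre a₀ i M P f g eN eT)
    {Xb : ℕ} (hb : f Xb = eN .Bl) {v : List ℕ} (h : GenL P [inl Xb] v) :
    ∃ b, BlW Ctl z₀ pre P f g eN eT Xb v b := by
  obtain ⟨v', hv', hg⟩ := transfer hN hint h (δ := [inl .Bl]) (by simp [hb])
  obtain ⟨b, rfl, hbl⟩ := sound Ctl z₀ pre hg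
  exact ⟨b, hb, h, hv', hbl⟩

/-- shape of the productions over `A` -/
lemma prod_A (hN : Function.Injective eN) (hint : Hint Ctl z₀ pre a₀ i M P f g eN eT)
    {X : ℕ} (hX : f X = eN .A) {γ : St} (h : (X, γ) ∈ P) :
    (∃ Xb, γ = [inl Xb] ∧ f Xb = eN .Bl) ∨
      ∃ a X' Xb, γ = [inr a, inl X', inl Xb] ∧ g a = eT .al ∧ f X' = eN .A ∧ f Xb = eN .Bl := by
  obtain ⟨Y, δ, h1, h2, h3⟩ := hint X γ h
  have : Y = .A := hN (by rw [← h2, hX])
  subst this
  rcases h1 with h1 | h1 | h1
  · cases h1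
  · cases h1 with
    | a1 =>
      right
      match γ, h3 with
      | [], h3 => simp at h3
      | [_], h3 => simp at h3
      | [_, _], h3 => simp at h3
      | _ :: _ :: _ :: _ :: _, h3 => simp at h3
      | [x, y, z], h3 =>
        simp only [List.map_cons, List.map_nil, List.cons.injEq, and_true] at h3
        obtain ⟨h4, h5, h6⟩ := h3
        cases x with
        | inl _ => simp at h4
        | inr a =>
          cases y with
          | inr _ => simp at h5
          | inl X' =>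
            cases z with
            | inr _ => simp at h6
            | inl Xb =>
              simp only [Sum.map_inr, Sum.map_inl, inr.injEq, inl.injEq] at h4 h5 h6
              exact ⟨a, X', Xb, rfl, h4, h5, h6⟩
    | a2 =>
      left
      match γ, h3 with
      | [], h3 => simp at h3
      | _ :: _ :: _, h3 => simp at h3
      | [x], h3 =>
        cases x with
        | inr _ => simp at h3
        | inl Xb =>
          simp only [List.map_cons, List.map_nil, Sum.map_inl, List.cons.injEq, inl.injEq,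
            and_true] at h3
          exact ⟨Xb, rfl, h3⟩
  · exact absurd (congrArg Prod.fst h1) (by simp [vR])

theorem da_of_gen (hN : Function.Injective eN) (hint : Hint Ctl z₀ pre a₀ i M P f g eN eT) :
    ∀ (n : ℕ) (X : ℕ) (w : List ℕ), w.length = n → f X = eN .A → GenL P [inl X] w →
      ∃ bs, DA Ctl z₀ pre P f g eN eT X w bs := by
  intro n
  induction n using Nat.strong_induction_on with
  | _ n ih =>
    intro X w hn hX hg0
    obtain ⟨γ, hγ, hg⟩ := genL_single_iff.1 hg0
    rcases prod_A hN hint hX hγ with ⟨Xb, rfl, hb⟩ | ⟨a, X', Xb, rfl, ha, hX', hb⟩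
    · obtain ⟨b, hb'⟩ := blW_of_gen hN hint hb hg
      exact ⟨[b], .base X Xb w b hγ hb'⟩
    · rw [genL_term_iff] at hg
      obtain ⟨v, rfl, hg1⟩ := hg
      obtain ⟨u, u', rfl, h1, h2⟩ := GenL.split (α := [inl X']) (β := [inl Xb]) hg1
      obtain ⟨b, hb'⟩ := blW_of_gen hN hint hb h2
      rw [List.length_cons, List.length_append] at hn
      obtain ⟨bs, hbs⟩ := ih u.length (by omega) X' u rfl hX' h1
      exact ⟨bs ++ [b], .step X a X' Xb u u' bs b hγ ha hbs hb'⟩

lemma da_ne {X : ℕ} {w : List ℕ} {bs : List (List (Option (Act K Γ)))}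
    (h : DA Ctl z₀ pre P f g eN eT X w bs) : bs ≠ [] := by
  cases h <;> simp

lemma da_bl {X : ℕ} {w : List ℕ} {bs : List (List (Option (Act K Γ)))}
    (h : DA Ctl z₀ pre P f g eN eT X w bs) : ∀ b ∈ bs, IsBl Ctl z₀ pre b := by
  induction h with
  | base X Xb v b hX hb =>
    intro b' hb'
    rw [List.mem_singleton] at hb'
    subst hb'
    exact hb.2.2.2
  | step X a X' Xb v v' bs b hX ha _ hb ih =>
    intro b' hb'
    rw [List.mem_append, List.mem_singleton] at hb'
    rcases hb' with hb' | rfl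
    · exact ih b' hb'
    · exact hb.2.2.2

lemma da_map {X : ℕ} {w : List ℕ} {bs : List (List (Option (Act K Γ)))}
    (h : DA Ctl z₀ pre P f g eN eT X w bs) : w.map g = (word bs).map eT := by
  induction h with
  | base X Xb v b hX hb => rw [word_single]; exact hb.2.2.1
  | step X a X' Xb v v' bs b hX ha h hb ih =>
    rw [word_append (da_ne h), List.map_cons, List.map_cons, ha, List.map_append,
      List.map_append, ih, hb.2.2.1]

lemma da_gen {X : ℕ} {w : List ℕ} {bs : List (List (Option (Act K Γ)))}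
    (h : DA Ctl z₀ pre P f g eN eT X w bs) : GenL P [inl X] w := by
  induction h with
  | base X Xb v b hX hb => exact genL_single_iff.2 ⟨_, hX, hb.2.1⟩
  | step X a X' Xb v v' bs b hX ha h hb ih =>
    exact genL_single_iff.2 ⟨_, hX, .term _ _ _ (GenL.append (α := [inl X']) ih hb.2.1)⟩

lemma pth_block (hN : Function.Injective eN) (hint : Hint Ctl z₀ pre a₀ i M P f g eN eT)
    {m H Lb : ℕ} (hm : ∀ p ∈ P, p.2.length ≤ m) (hne : ∀ p ∈ P, p.2 ≠ [])
    (hLb : H + m + 3 ≤ Lb) {Xb : ℕ} {v : List ℕ} (hb : f Xb = eN .Bl) (h : GenL P [inl Xb] v)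
    {β q : St} {w : List ℕ} (hβ : β.length ≤ H) (hp : Pth P Lb β w q) :
    Pth P Lb (inl Xb :: β) (v ++ w) q :=
  pth_form hN hint hm hne hLb h ⟨rfl, .Bl, hb, trivial⟩ β q w hβ hp

theorem da_pth (hN : Function.Injective eN) (hint : Hint Ctl z₀ pre a₀ i M P f g eN eT)
    {m H Lb : ℕ} (hm : ∀ p ∈ P, p.2.length ≤ m) (hne : ∀ p ∈ P, p.2 ≠ [])
    (hLb : H + m + 3 ≤ Lb) {X : ℕ} {w : List ℕ} {bs : List (List (Option (Act K Γ)))}
    (h : DA Ctl z₀ pre P f g eN eT X w bs) :
    ∀ (β q : St) (w' : List ℕ), β.length + bs.length ≤ H → Pth P Lb β w' q →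
      Pth P Lb (inl X :: β) (w ++ w') q := by
  induction h with
  | base X Xb v b hX hb =>
    intro β q w' hβ hp
    rw [List.length_singleton] at hβ
    have h1 := pth_block hN hint hm hne hLb hb.1 hb.2.1 (by omega) hp
    refine pth_expand (α := [inl Xb]) hX ?_ ?_ h1
    · simp only [List.length_append, List.length_singleton]
      omega
    · have := genL_ne_nil hne hb.2.1 (by simp)
      intro h4
      exact this (List.append_eq_nil_iff.1 h4).1
  | step X a X' Xb v v' bs b hX ha h hb ih =>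
    intro β q w' hβ hp
    rw [List.length_append, List.length_singleton] at hβ
    have h1 := pth_block hN hint hm hne hLb hb.1 hb.2.1 (by omega) hp
    have h2 := ih (inl Xb :: β) q (v' ++ w') (by rw [List.length_cons]; omega) h1
    have h3 : Pth P Lb ([inr a, inl X', inl Xb] ++ β) (a :: (v ++ (v' ++ w'))) q := pth_term h2
    have e : a :: (v ++ v') ++ w' = a :: (v ++ (v' ++ w')) := by simp
    rw [e]
    refine pth_expand hX ?_ (by simp) h3
    simp only [List.length_append, List.length_cons, List.length_nil]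
    omega

end blocks

end Pool.Agent.Helper91.GH
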