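import Mathlib
import Pool.Agent.Helper91.GH.Blocks

/-!
# The productions of the new interpretation of the error grammar
-/

set_option autoImplicit false

namespace Pool.Agent.Helper91.GH

open Sum Pool.Agent.Helper88.GF

section new

variable {K Γ Z : Type} [DecidableEq K] [DecidableEq Γ]

/-- old symbols -/
def ren (β : St) : List (NN K Z ⊕ ℕ) := β.map (Sum.map .old id)

/-- the new productions -/
inductive PPr (a₀ : Act K Γ) (i : Tm K Γ → ℕ) (M : ℕ) (P : Set Pr) (Lb : ℕ) (f g : ℕ → ℕ)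
    (eN : N K Z → ℕ) (eT : Tm K Γ → ℕ) : NN K Z → List (NN K Z ⊕ ℕ) → Prop
  | old (X : ℕ) (β : St) (h : (X, β) ∈ P) (Y : N K Z) (δ : List (N K Z ⊕ Tm K Γ))
      (h' : R0 Z a₀ i M (Y, δ)) (hY : f X = eN Y)
      (hδ : β.map (Sum.map f g) = δ.map (Sum.map eN eT)) :
      PPr a₀ i M P Lb f g eN eT (.old X) (ren β)
  | longE (X Xa : ℕ) (u : List ℕ) (h : (X, u.map inr ++ [inl Xa]) ∈ P)
      (hu : u.map g = List.replicate M (eT .dol)) (hX : f X = eN .S) :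
      PPr a₀ i M P Lb f g eN eT (.old X) (u.map inr ++ [inl (.eb Xa)])
  | longT (X Xa : ℕ) (u : List ℕ) (h : (X, u.map inr ++ [inl Xa]) ∈ P)
      (hu : u.map g = List.replicate M (eT .dol)) (hX : f X = eN .S) :
      PPr a₀ i M P Lb f g eN eT (.old X) (u.map inr ++ [inl (.tr [inl Xa] .T [])])
  | eb1 (X a X' Xb : ℕ) (h : (X, [inr a, inl X', inl Xb]) ∈ P) (ha : g a = eT .al) :
      PPr a₀ i M P Lb f g eN eT (.eb X) [inr a, inl (.eb X'), inl (.tr [inl Xb] .U [])]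
  | eb2 (X a X' Xb : ℕ) (h : (X, [inr a, inl X', inl Xb]) ∈ P) (ha : g a = eT .al) :
      PPr a₀ i M P Lb f g eN eT (.eb X) [inr a, inl (.fr X'), inl (.tr [inl Xb] .X [])]
  | eb3 (X Xb : ℕ) (h : (X, [inl Xb]) ∈ P) :
      PPr a₀ i M P Lb f g eN eT (.eb X) [inl (.tr [inl Xb] .X [])]
  | eb4 (X a X' Xb a' X'' Xb' : ℕ) (h : (X, [inr a, inl X', inl Xb]) ∈ P) (ha : g a = eT .al)
      (h' : (X', [inr a', inl X'', inl Xb']) ∈ P) (ha' : g a' = eT .al) :
      PPr a₀ i M P Lb f g eN eT (.eb X)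
        [inr a, inr a', inl (.fr X''), inl (.tr [inl Xb', inl Xb] .D0 [])]
  | eb5 (X a X' Xb Xb' : ℕ) (h : (X, [inr a, inl X', inl Xb]) ∈ P) (ha : g a = eT .al)
      (h' : (X', [inl Xb']) ∈ P) :
      PPr a₀ i M P Lb f g eN eT (.eb X) [inr a, inl (.tr [inl Xb', inl Xb] .D0 [])]
  | fr1 (X a X' Xb : ℕ) (h : (X, [inr a, inl X', inl Xb]) ∈ P) (ha : g a = eT .al) :
      PPr a₀ i M P Lb f g eN eT (.fr X) [inr a, inl (.fr X'), inl (.tr [inl Xb] .U [])]
  | fr2 (X Xb : ℕ) (h : (X, [inl Xb]) ∈ P) :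
      PPr a₀ i M P Lb f g eN eT (.fr X) [inl (.tr [inl Xb] .U [])]
  | tr (p : St) (Y : N K Z) (q : St) (δ : List (N K Z ⊕ Tm K Γ)) (γ : List (NN K Z ⊕ ℕ))
      (hδ : R0 Z a₀ i M (Y, δ)) (hp : p ∈ Qf P Lb) (hl : Lf P Lb g eT p δ γ q) :
      PPr a₀ i M P Lb f g eN eT (.tr p Y q) γ

/-- the interpretation on the new nonterminals -/
def Fn (f : ℕ → ℕ) (eN : N K Z → ℕ) : NN K Z → ℕ
  | .old X => f X
  | .eb _ => eN .Eb
  | .fr _ => eN .Fr
  | .tr _ Y _ => eN Y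

variable {a₀ : Act K Γ} {i : Tm K Γ → ℕ} {M : ℕ} {P : Set Pr} {Lb : ℕ} {f g : ℕ → ℕ}
  {eN : N K Z → ℕ} {eT : Tm K Γ → ℕ}

omit [DecidableEq K] [DecidableEq Γ] in
lemma ren_map (β : St) : (ren β : List (NN K Z ⊕ ℕ)).map (Sum.map (Fn f eN) g) =
    β.map (Sum.map f g) := by
  unfold ren
  rw [List.map_map]
  congr 1
  ext x
  cases x with
  | inl y => rfl
  | inr y => rfl

omit [DecidableEq K] [DecidableEq Γ] in
lemma dol_map (u : List ℕ) (hu : u.map g = List.replicate M (eT .dol)) (x : NN K Z) (Y : N K Z)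
    (hx : Fn f eN x = eN Y) :
    ((u.map inr ++ [inl x] : List (NN K Z ⊕ ℕ))).map (Sum.map (Fn f eN) g) =
      (List.replicate M (dl : N K Z ⊕ Tm K Γ) ++ [inl Y]).map (Sum.map eN eT) := by
  have e1 : (u.map (inr : ℕ → NN K Z ⊕ ℕ)).map (Sum.map (Fn f eN) g) =
      (u.map g).map (inr : ℕ → ℕ ⊕ ℕ) := by
    rw [List.map_map, List.map_map]; rfl
  rw [List.map_append, e1, hu, List.map_append, List.map_replicate, List.map_replicate,
    List.map_singleton, List.map_singleton, Sum.map_inl, Sum.map_inl, hx]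
  rfl

/-- the new productions are mapped to rules of the error grammar -/
theorem ppr_interp {x : NN K Z} {γ : List (NN K Z ⊕ ℕ)}
    (h : PPr a₀ i M P Lb f g eN eT x γ) :
    ∃ Y δ, R0 Z a₀ i M (Y, δ) ∧ Fn f eN x = eN Y ∧
      γ.map (Sum.map (Fn f eN) g) = δ.map (Sum.map eN eT) := by
  cases h with
  | old X β h Y δ h' hY hδ => exact ⟨Y, δ, h', hY, by rw [ren_map, hδ]⟩
  | longE X Xa u h hu hX => exact ⟨_, _, .longE, hX, dol_map u hu _ _ rfl⟩
  | longT X Xa u h hu hX => exact ⟨_, _, .longT, hX, dol_map u hu _ _ rfl⟩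
  | eb1 X a X' Xb h ha => exact ⟨_, _, .eb1, rfl, by simp [Fn, ha]⟩
  | eb2 X a X' Xb h ha => exact ⟨_, _, .eb2, rfl, by simp [Fn, ha]⟩
  | eb3 X Xb h => exact ⟨_, _, .eb3, rfl, by simp [Fn]⟩
  | eb4 X a X' Xb a' X'' Xb' h ha h' ha' => exact ⟨_, _, .eb4, rfl, by simp [Fn, ha, ha']⟩
  | eb5 X a X' Xb Xb' h ha h' => exact ⟨_, _, .eb5, rfl, by simp [Fn, ha]⟩
  | fr1 X a X' Xb h ha => exact ⟨_, _, .fr1, rfl, by simp [Fn, ha]⟩
  | fr2 X Xb h => exact ⟨_, _, .fr2, rfl, by simp [Fn]⟩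
  | tr p Y q δ γ hδ hp hl => exact ⟨Y, δ, hδ, rfl, lf_map (Fn f eN) (fun _ _ _ => rfl) hl⟩

/-- meaning of the new nonterminals -/
def Sn (P : Set Pr) (Lb : ℕ) : NN K Z → List ℕ → Prop
  | .old X, w => GenL P [inl X] w
  | .eb X, w => GenL P [inl X] w
  | .fr X, w => GenL P [inl X] w
  | .tr p _ q, w => Pth P Lb p w q

omit [DecidableEq K] [DecidableEq Γ] in
lemma ren_sound {β : St} : ∀ {w : List ℕ},
    SemL (Sn P Lb) (ren β : List (NN K Z ⊕ ℕ)) w → GenL P β w := by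
  induction β with
  | nil =>
    intro w h
    have : w = [] := h
    subst this
    exact .nil
  | cons x β ih =>
    intro w h
    cases x with
    | inl X =>
      obtain ⟨u, v, rfl, h1, h2⟩ := h
      exact GenL.append (α := [inl X]) h1 (ih h2)
    | inr a =>
      obtain ⟨v, rfl, h2⟩ := h
      exact .term _ _ _ (ih h2)

lemma ppr_sound1 {x : NN K Z} {γ : List (NN K Z ⊕ ℕ)} {w : List ℕ}
    (h : PPr a₀ i M P Lb f g eN eT x γ) (hw : SemL (Sn P Lb) γ w) : Sn P Lb x w := by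
  cases h with
  | old X β h Y δ h' hY hδ => exact genL_single_iff.2 ⟨β, h, ren_sound hw⟩
  | longE X Xa u h hu hX =>
    obtain ⟨v, rfl, u', v', rfl, h1, rfl⟩ := semL_terminals _ _ _ hw
    rw [List.append_nil]
    exact genL_single_iff.2 ⟨_, h, (genL_terminals u).append h1⟩
  | longT X Xa u h hu hX =>
    obtain ⟨v, rfl, u', v', rfl, h1, rfl⟩ := semL_terminals _ _ _ hw
    rw [List.append_nil]
    exact genL_single_iff.2 ⟨_, h, (genL_terminals u).append (pth_nil_sound h1)⟩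
  | eb1 X a X' Xb h ha =>
    obtain ⟨v, rfl, u, v', rfl, h1, u', v'', rfl, h2, rfl⟩ := hw
    rw [List.append_nil]
    exact genL_single_iff.2 ⟨_, h, .term _ _ _ (GenL.append (α := [inl X']) h1
      (pth_nil_sound h2))⟩
  | eb2 X a X' Xb h ha =>
    obtain ⟨v, rfl, u, v', rfl, h1, u', v'', rfl, h2, rfl⟩ := hw
    rw [List.append_nil]
    exact genL_single_iff.2 ⟨_, h, .term _ _ _ (GenL.append (α := [inl X']) h1
      (pth_nil_sound h2))⟩
  | eb3 X Xb h =>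
    obtain ⟨u, v', rfl, h1, rfl⟩ := hw
    rw [List.append_nil]
    exact genL_single_iff.2 ⟨_, h, pth_nil_sound h1⟩
  | eb4 X a X' Xb a' X'' Xb' h ha h' ha' =>
    obtain ⟨v, rfl, v1, rfl, u, v', rfl, h1, u', v'', rfl, h2, rfl⟩ := hw
    rw [List.append_nil]
    obtain ⟨x, y, rfl, h3, h4⟩ := GenL.split (α := [inl Xb']) (β := [inl Xb])
      (pth_nil_sound h2)
    have h5 : GenL P [inl X'] (a' :: (u ++ x)) :=
      genL_single_iff.2 ⟨_, h', .term _ _ _ (GenL.append (α := [inl X'']) h1 h3)⟩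
    have h6 : GenL P [inl X] (a :: ((a' :: (u ++ x)) ++ y)) :=
      genL_single_iff.2 ⟨_, h, .term _ _ _ (GenL.append (α := [inl X']) h5 h4)⟩
    have e : a :: ((a' :: (u ++ x)) ++ y) = a :: a' :: (u ++ (x ++ y)) := by simp
    rw [e] at h6
    exact h6
  | eb5 X a X' Xb Xb' h ha h' =>
    obtain ⟨v, rfl, u', v'', rfl, h2, rfl⟩ := hw
    rw [List.append_nil]
    obtain ⟨x, y, rfl, h3, h4⟩ := GenL.split (α := [inl Xb']) (β := [inl Xb])
      (pth_nil_sound h2)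
    have h5 : GenL P [inl X'] x := genL_single_iff.2 ⟨_, h', h3⟩
    exact genL_single_iff.2 ⟨_, h, .term _ _ _ (GenL.append (α := [inl X']) h5 h4)⟩
  | fr1 X a X' Xb h ha =>
    obtain ⟨v, rfl, u, v', rfl, h1, u', v'', rfl, h2, rfl⟩ := hw
    rw [List.append_nil]
    exact genL_single_iff.2 ⟨_, h, .term _ _ _ (GenL.append (α := [inl X']) h1
      (pth_nil_sound h2))⟩
  | fr2 X Xb h =>
    obtain ⟨u, v', rfl, h1, rfl⟩ := hw
    rw [List.append_nil]
    exact genL_single_iff.2 ⟨_, h, pth_nil_sound h1⟩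
  | tr p Y q δ γ hδ hp hl => exact lf_sound (fun _ _ _ _ h => h) hl hw

variable (a₀ i M P Lb f g eN eT) in
/-- the new productions as a set -/
def PP : Set (NN K Z × List (NN K Z ⊕ ℕ)) := {x | PPr a₀ i M P Lb f g eN eT x.1 x.2}

theorem ppr_sound {x : NN K Z} {w : List ℕ}
    (h : GenL (PP a₀ i M P Lb f g eN eT) [inl x] w) : Sn P Lb x w := by
  have := semL_of_genL (P := PP a₀ i M P Lb f g eN eT) (Sn P Lb)
    (fun A β w hA hw => ppr_sound1 hA hw) h
  obtain ⟨u, v', rfl, h1, rfl⟩ := this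
  rw [List.append_nil]; exact h1

end new

end Pool.Agent.Helper91.GH
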