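import Mathlib
import Pool.Agent.Helper91.GH.New

/-!
# The new interpretation generates the same language
-/

set_option autoImplicit false

namespace Pool.Agent.Helper91.GH

open Sum Pool.Agent.Helper88.GF

section fin

variable {K Γ Z : Type} [DecidableEq K] [DecidableEq Γ]

variable {a₀ : Act K Γ} {i : Tm K Γ → ℕ} {M : ℕ} {P : Set Pr} {Lb : ℕ} {f g : ℕ → ℕ}
  {eN : N K Z → ℕ} {eT : Tm K Γ → ℕ}

/-- old nonterminals -/
def NX (P : Set Pr) : Set ℕ := {X | inl X ∈ Al P ∨ ∃ β, (X, β) ∈ P}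

variable (K Z) in
/-- new nonterminals -/
def SN (P : Set Pr) (Lb : ℕ) : Set (NN K Z) := {x | match x with
  | .old X => X ∈ NX P
  | .eb X => X ∈ NX P
  | .fr X => X ∈ NX P
  | .tr p _ q => p ∈ Qf P Lb ∧ q ∈ Qf P Lb}

variable (K Z) in
/-- new symbols -/
def SX (P : Set Pr) (Lb : ℕ) : Set (NN K Z ⊕ ℕ) := {x | match x with
  | inl A => A ∈ SN K Z P Lb
  | inr a => inr a ∈ Al P}

lemma nx_finite (h : P.Finite) : (NX P).Finite := by
  have h1 : {X : ℕ | (inl X : ℕ ⊕ ℕ) ∈ Al P}.Finite :=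
    (al_finite h).preimage (f := (inl : ℕ → ℕ ⊕ ℕ)) (Sum.inl_injective.injOn)
  have h2 : {X : ℕ | ∃ β, (X, β) ∈ P}.Finite := by
    refine (h.image Prod.fst).subset ?_
    rintro X ⟨β, hβ⟩
    exact ⟨_, hβ, rfl⟩
  exact h1.union h2

lemma sn_finite [Finite K] [Finite Z] (h : P.Finite) : (SN K Z P Lb).Finite := by
  have hx := nx_finite h
  have hq : (Qf P Lb).Finite := qf_finite h
  have hu : (Set.univ : Set (N K Z)).Finite := Set.finite_univ
  have h4 := (hq.prod (hu.prod hq)).image fun t : St × N K Z × St => (NN.tr t.1 t.2.1 t.2.2)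
  refine (((hx.image NN.old).union (hx.image NN.eb)).union
    ((hx.image NN.fr).union h4)).subset ?_
  intro x hx
  cases x with
  | old X => exact Or.inl (Or.inl ⟨X, hx, rfl⟩)
  | eb X => exact Or.inl (Or.inr ⟨X, hx, rfl⟩)
  | fr X => exact Or.inr (Or.inl ⟨X, hx, rfl⟩)
  | tr p Y q => exact Or.inr (Or.inr ⟨(p, Y, q), ⟨hx.1, trivial, hx.2⟩, rfl⟩)

lemma sx_finite [Finite K] [Finite Z] (h : P.Finite) : (SX K Z P Lb).Finite := by
  have h1 : {X : ℕ | (inr X : ℕ ⊕ ℕ) ∈ Al P}.Finite :=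
    (al_finite h).preimage (f := (inr : ℕ → ℕ ⊕ ℕ)) (Sum.inr_injective.injOn)
  refine (((sn_finite (Lb := Lb) h).image inl).union (h1.image inr)).subset ?_
  intro x hx
  cases x with
  | inl A => exact Or.inl ⟨A, hx, rfl⟩
  | inr a => exact Or.inr ⟨a, hx, rfl⟩

lemma qf_nil : [] ∈ Qf P Lb := ⟨Nat.zero_le _, by simp⟩

lemma qf_one (hLb : 2 ≤ Lb) {X : ℕ} (h : inl X ∈ Al P) : [inl X] ∈ Qf P Lb := by
  refine ⟨by simp only [List.length_singleton]; omega, ?_⟩
  intro x hx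
  rw [List.mem_singleton] at hx
  subst hx
  exact h

lemma qf_two (hLb : 2 ≤ Lb) {X Y : ℕ} (h : inl X ∈ Al P) (h' : inl Y ∈ Al P) :
    [inl X, inl Y] ∈ Qf P Lb := by
  refine ⟨by simpa using hLb, ?_⟩
  intro x hx
  rw [List.mem_cons, List.mem_singleton] at hx
  rcases hx with rfl | rfl
  · exact h
  · exact h'

omit [DecidableEq K] [DecidableEq Γ] in
lemma sx_tm {X : ℕ} {γ : St} (h : (X, γ) ∈ P) {a : ℕ} (ha : inr a ∈ γ) :
    (inr a : NN K Z ⊕ ℕ) ∈ SX K Z P Lb := ⟨_, h, ha⟩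

lemma nx_tm {X : ℕ} {γ : St} (h : (X, γ) ∈ P) {B : ℕ} (ha : inl B ∈ γ) : B ∈ NX P :=
  Or.inl ⟨_, h, ha⟩

lemma pp_sub (hLb : 2 ≤ Lb) {x : NN K Z} {γ : List (NN K Z ⊕ ℕ)}
    (h : PPr a₀ i M P Lb f g eN eT x γ) : x ∈ SN K Z P Lb ∧ ∀ y ∈ γ, y ∈ SX K Z P Lb := by
  have al : ∀ {X : ℕ} {γ : St}, (X, γ) ∈ P → ∀ {B : ℕ}, inl B ∈ γ → inl B ∈ Al P :=
    fun h _ hB => ⟨_, h, hB⟩
  have tr1 : ∀ {X : ℕ} {γ : St}, (X, γ) ∈ P → ∀ {B : ℕ}, inl B ∈ γ → ∀ Y : N K Z,
      (inl (.tr [inl B] Y []) : NN K Z ⊕ ℕ) ∈ SX K Z P Lb :=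
    fun h _ hB Y => ⟨qf_one hLb (al h hB), qf_nil⟩
  cases h with
  | old X β h Y δ h' hY hδ =>
    refine ⟨Or.inr ⟨β, h⟩, ?_⟩
    intro y hy
    unfold ren at hy
    rw [List.mem_map] at hy
    obtain ⟨z, hz, rfl⟩ := hy
    cases z with
    | inl B => exact nx_tm h hz
    | inr a => exact sx_tm h hz
  | longE X Xa u h hu hX =>
    refine ⟨Or.inr ⟨_, h⟩, ?_⟩
    intro y hy
    rw [List.mem_append, List.mem_map, List.mem_singleton] at hy
    rcases hy with ⟨a, ha, rfl⟩ | rfl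
    · exact sx_tm h (by simp [ha])
    · exact nx_tm h (by simp)
  | longT X Xa u h hu hX =>
    refine ⟨Or.inr ⟨_, h⟩, ?_⟩
    intro y hy
    rw [List.mem_append, List.mem_map, List.mem_singleton] at hy
    rcases hy with ⟨a, ha, rfl⟩ | rfl
    · exact sx_tm h (by simp [ha])
    · exact tr1 h (by simp) _
  | eb1 X a X' Xb h ha =>
    refine ⟨Or.inr ⟨_, h⟩, ?_⟩
    intro y hy
    simp only [List.mem_cons, List.not_mem_nil, or_false] at hy
    rcases hy with rfl | rfl | rfl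
    · exact sx_tm h (by simp)
    · exact nx_tm h (by simp)
    · exact tr1 h (by simp) _
  | eb2 X a X' Xb h ha =>
    refine ⟨Or.inr ⟨_, h⟩, ?_⟩
    intro y hy
    simp only [List.mem_cons, List.not_mem_nil, or_false] at hy
    rcases hy with rfl | rfl | rfl
    · exact sx_tm h (by simp)
    · exact nx_tm h (by simp)
    · exact tr1 h (by simp) _
  | eb3 X Xb h =>
    refine ⟨Or.inr ⟨_, h⟩, ?_⟩
    intro y hy
    rw [List.mem_singleton] at hy
    subst hy
    exact tr1 h (by simp) _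
  | eb4 X a X' Xb a' X'' Xb' h ha h' ha' =>
    refine ⟨Or.inr ⟨_, h⟩, ?_⟩
    intro y hy
    simp only [List.mem_cons, List.not_mem_nil, or_false] at hy
    rcases hy with rfl | rfl | rfl | rfl
    · exact sx_tm h (by simp)
    · exact sx_tm h' (by simp)
    · exact nx_tm h' (by simp)
    · exact ⟨qf_two hLb (al h' (by simp)) (al h (by simp)), qf_nil⟩
  | eb5 X a X' Xb Xb' h ha h' =>
    refine ⟨Or.inr ⟨_, h⟩, ?_⟩
    intro y hy
    simp only [List.mem_cons, List.not_mem_nil, or_false] at hy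
    rcases hy with rfl | rfl
    · exact sx_tm h (by simp)
    · exact ⟨qf_two hLb (al h' (by simp)) (al h (by simp)), qf_nil⟩
  | fr1 X a X' Xb h ha =>
    refine ⟨Or.inr ⟨_, h⟩, ?_⟩
    intro y hy
    simp only [List.mem_cons, List.not_mem_nil, or_false] at hy
    rcases hy with rfl | rfl | rfl
    · exact sx_tm h (by simp)
    · exact nx_tm h (by simp)
    · exact tr1 h (by simp) _
  | fr2 X Xb h =>
    refine ⟨Or.inr ⟨_, h⟩, ?_⟩
    intro y hy
    rw [List.mem_singleton] at hy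
    subst hy
    exact tr1 h (by simp) _
  | tr p Y q δ γ hδ hp hl =>
    obtain ⟨h1, h2⟩ := lf_mem hl hp
    refine ⟨⟨hp, h1⟩, ?_⟩
    intro y hy
    rcases h2 y hy with ⟨a, rfl, ha⟩ | ⟨p', Y', r, rfl, h3, h4⟩
    · exact ha
    · exact ⟨h3, h4⟩

theorem pp_finite [Finite K] [Finite Z] (hLb : 2 ≤ Lb) (h : P.Finite) {B₀ : ℕ}
    (hB : ∀ p, R0 Z a₀ i M p → p.2.length ≤ B₀) : (PP a₀ i M P Lb f g eN eT).Finite := by
  have h1 : {l : List (NN K Z ⊕ ℕ) | l.length ≤ B₀ ∧ ∀ x ∈ l, x ∈ SX K Z P Lb}.Finite :=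
    finite_lists (sx_finite h) B₀
  refine ((sn_finite (Lb := Lb) h).prod h1).subset ?_
  rintro ⟨x, γ⟩ hx
  obtain ⟨h2, h3⟩ := pp_sub hLb hx
  obtain ⟨Y, δ, h4, -, h5⟩ := ppr_interp hx
  refine ⟨h2, ?_, h3⟩
  have h6 : γ.length = δ.length := by
    have := congrArg List.length h5
    rwa [List.length_map, List.length_map] at this
  have h7 : δ.length ≤ B₀ := hB _ h4
  show γ.length ≤ B₀
  omega

end fin

section complete

variable {K Γ Z : Type} [DecidableEq K] [DecidableEq Γ]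

variable {Ctl : Z → Act K Γ → Option Z → Prop} {z₀ : Z} {pre : List (Act K Γ)} {a₀ : Act K Γ}
  {i : Tm K Γ → ℕ} {M : ℕ} {P : Set Pr} {f g : ℕ → ℕ} {eN : N K Z → ℕ} {eT : Tm K Γ → ℕ}
  {m H Lb : ℕ}

lemma tr_block (hN : Function.Injective eN) (hint : Hint Ctl z₀ pre a₀ i M P f g eN eT)
    (hm : ∀ p ∈ P, p.2.length ≤ m) (hne : ∀ p ∈ P, p.2 ≠ []) (hLb : H + m + 3 ≤ Lb)
    {Y : N K Z} {Xb : ℕ} {v : List ℕ} {b : List (Option (Act K Γ))}
    (hb : BlW Ctl z₀ pre P f g eN eT Xb v b) (hXb : inl Xb ∈ Al P)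
    (hg : GenL (P0 Z a₀ i M) [inl Y] (b.map .lt ++ [.fin])) :
    GenL (PP a₀ i M P Lb f g eN eT) [inl (.tr [inl Xb] Y [])] v := by
  refine gen_tr (R := P0 Z a₀ i M) (fun p Y q δ γ h1 h2 h3 => .tr p Y q δ γ h1 h2 h3) hg
    hb.2.2.1 (qf_one (by omega) hXb) ?_
  have := pth_block hN hint hm hne hLb hb.1 hb.2.1 (β := []) (q := []) (w := [])
    (by simp) rfl
  rwa [List.append_nil] at this

lemma tr_two (hN : Function.Injective eN) (hint : Hint Ctl z₀ pre a₀ i M P f g eN eT)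
    (hm : ∀ p ∈ P, p.2.length ≤ m) (hne : ∀ p ∈ P, p.2 ≠ []) (hLb : H + m + 3 ≤ Lb)
    (hH : 1 ≤ H) {Xb Xb' : ℕ} {v v' : List ℕ} {b b' : List (Option (Act K Γ))}
    (hb : BlW Ctl z₀ pre P f g eN eT Xb v b) (hXb : inl Xb ∈ Al P)
    (hb' : BlW Ctl z₀ pre P f g eN eT Xb' v' b') (hXb' : inl Xb' ∈ Al P)
    (hc : cnt b ≤ cnt b') :
    GenL (PP a₀ i M P Lb f g eN eT) [inl (.tr [inl Xb', inl Xb] .D0 [])] (v' ++ v) := by
  refine gen_tr (R := P0 Z a₀ i M) (fun p Y q δ γ h1 h2 h3 => .tr p Y q δ γ h1 h2 h3)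
    (comp_D0 (Z := Z) a₀ i M hc) ?_ (qf_two (by omega) hXb' hXb) ?_
  · rw [List.map_append, List.map_append, hb.2.2.1, hb'.2.2.1]
  · have h1 := pth_block hN hint hm hne hLb hb.1 hb.2.1 (β := []) (q := []) (w := [])
      (by simp) rfl
    rw [List.append_nil] at h1
    exact pth_block hN hint hm hne hLb hb'.1 hb'.2.1 (by simpa using hH) h1

theorem da_fr (hN : Function.Injective eN) (hint : Hint Ctl z₀ pre a₀ i M P f g eN eT)
    (hm : ∀ p ∈ P, p.2.length ≤ m) (hne : ∀ p ∈ P, p.2 ≠ []) (hLb : H + m + 3 ≤ Lb)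
    {X : ℕ} {w : List ℕ} {bs : List (List (Option (Act K Γ)))}
    (h : DA Ctl z₀ pre P f g eN eT X w bs) :
    GenL (PP a₀ i M P Lb f g eN eT) [inl (.fr X)] w := by
  induction h with
  | base X Xb v b hX hb =>
    refine genL_single_iff.2 ⟨_, .fr2 X Xb hX, ?_⟩
    exact tr_block hN hint hm hne hLb hb ⟨_, hX, by simp⟩ (comp_U a₀ i M b)
  | step X a X' Xb v v' bs b hX ha h hb ih =>
    refine genL_single_iff.2 ⟨_, .fr1 X a X' Xb hX ha, .term _ _ _ ?_⟩
    exact GenL.append (α := [inl (NN.fr X')]) ih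
      (tr_block hN hint hm hne hLb hb ⟨_, hX, by simp⟩ (comp_U a₀ i M b))

omit [DecidableEq K] [DecidableEq Γ] in
lemma chain_single (b : List (Option (Act K Γ))) :
    List.IsChain (fun b b' : List (Option (Act K Γ)) => cnt b < cnt b') [b] :=
  List.isChain_singleton b

lemma not_good_append {bs : List (List (Option (Act K Γ)))} {b b' : List (Option (Act K Γ))}
    (h : ¬ Good a₀ (bs ++ [b])) (hg : Good a₀ bs) (hb : ∀ k, runL a₀ k b [] ≠ none)
    (hl : bs.getLast? = some b') : cnt b ≤ cnt b' := by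
  by_contra hc
  push Not at hc
  apply h
  refine ⟨?_, ?_⟩
  · intro c hc' k
    rw [List.mem_append, List.mem_singleton] at hc'
    rcases hc' with hc' | rfl
    · exact hg.1 c hc' k
    · exact hb k
  · rw [List.isChain_append]
    refine ⟨hg.2, chain_single b, ?_⟩
    intro x hx y hy
    rw [hl] at hx
    simp only [Option.mem_def, Option.some.injEq, List.head?_cons] at hx hy
    subst hx hy
    exact hc

theorem da_eb (hN : Function.Injective eN) (hint : Hint Ctl z₀ pre a₀ i M P f g eN eT)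
    (hm : ∀ p ∈ P, p.2.length ≤ m) (hne : ∀ p ∈ P, p.2 ≠ []) (hLb : H + m + 3 ≤ Lb)
    (hH : 1 ≤ H) {X : ℕ} {w : List ℕ} {bs : List (List (Option (Act K Γ)))}
    (h : DA Ctl z₀ pre P f g eN eT X w bs) : ¬ Good a₀ bs →
    GenL (PP a₀ i M P Lb f g eN eT) [inl (.eb X)] w := by
  induction h with
  | base X Xb v b hX hb =>
    intro hg
    have : ∃ k, runL a₀ k b [] = none := by
      by_contra hcon
      push Not at hcon
      apply hg
      refine ⟨?_, chain_single b⟩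
      intro c hc k
      rw [List.mem_singleton] at hc
      subst hc
      exact hcon k
    obtain ⟨k, hk⟩ := this
    refine genL_single_iff.2 ⟨_, .eb3 X Xb hX, ?_⟩
    exact tr_block hN hint hm hne hLb hb ⟨_, hX, by simp⟩ (comp_X a₀ i M hk)
  | step X a X' Xb v v' bs b hX ha h hb ih =>
    intro hg
    have hXb : inl Xb ∈ Al P := ⟨_, hX, by simp⟩
    by_cases hg' : Good a₀ bs
    · by_cases hk : ∃ k, runL a₀ k b [] = none
      · obtain ⟨k, hk⟩ := hk
        refine genL_single_iff.2 ⟨_, .eb2 X a X' Xb hX ha, .term _ _ _ ?_⟩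
        exact GenL.append (α := [inl (NN.fr X')]) (da_fr hN hint hm hne hLb h)
          (tr_block hN hint hm hne hLb hb hXb (comp_X a₀ i M hk))
      · push Not at hk
        cases h with
        | base _ Xb' _ b' hX' hb' =>
          have hc : cnt b ≤ cnt b' := not_good_append hg hg' hk (by simp)
          refine genL_single_iff.2 ⟨_, .eb5 X a X' Xb Xb' hX ha hX', .term _ _ _ ?_⟩
          exact tr_two hN hint hm hne hLb hH hb hXb hb' ⟨_, hX', by simp⟩ hc
        | step _ a' X'' Xb' v₁ v₂ bs' b' hX' ha' h' hb' =>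
          have hc : cnt b ≤ cnt b' := not_good_append hg hg' hk (by simp)
          refine genL_single_iff.2 ⟨_, .eb4 X a X' Xb a' X'' Xb' hX ha hX' ha',
            .term _ _ _ ?_⟩
          have h1 := da_fr hN hint hm hne hLb h'
          have h2 := tr_two hN hint hm hne hLb hH hb hXb hb' ⟨_, hX', by simp⟩ hc
          have h3 := GenL.append (α := [inl (NN.fr X'')]) h1 h2
          have e : a' :: (v₁ ++ v₂) ++ v' = a' :: (v₁ ++ (v₂ ++ v')) := by simp
          rw [e]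
          exact .term _ _ _ h3
    · refine genL_single_iff.2 ⟨_, .eb1 X a X' Xb hX ha, .term _ _ _ ?_⟩
      exact GenL.append (α := [inl (NN.eb X')]) (ih hg')
        (tr_block hN hint hm hne hLb hb hXb (comp_U a₀ i M b))

theorem da_tr (hN : Function.Injective eN) (hint : Hint Ctl z₀ pre a₀ i M P f g eN eT)
    (hm : ∀ p ∈ P, p.2.length ≤ m) (hne : ∀ p ∈ P, p.2 ≠ []) (hLb : H + m + 3 ≤ Lb)
    {X : ℕ} {w : List ℕ} {bs : List (List (Option (Act K Γ)))}
    (h : DA Ctl z₀ pre P f g eN eT X w bs) (hX : inl X ∈ Al P) (hl : bs.length ≤ H) :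
    GenL (PP a₀ i M P Lb f g eN eT) [inl (.tr [inl X] .T [])] w := by
  have hw : word bs ≠ [] := by
    intro hw
    have h1 := da_map h
    rw [hw, List.map_nil, List.map_eq_nil_iff] at h1
    exact genL_ne_nil hne (da_gen h) (by simp) h1
  refine gen_tr (R := P0 Z a₀ i M) (fun p Y q δ γ h1 h2 h3 => .tr p Y q δ γ h1 h2 h3)
    (comp_T a₀ i M hw) (da_map h) (qf_one (by omega) hX) ?_
  have := da_pth hN hint hm hne hLb h [] [] [] (by simpa using hl) rfl
  rwa [List.append_nil] at this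

/-- nonterminals of the error grammar -/
def isE : N K Z → Prop
  | .T => True
  | .Eb => True
  | .Fr => True
  | .U => True
  | .X => True
  | .D0 => True
  | .D1 => True
  | .E => True
  | .Dk _ => True
  | .B _ => True
  | _ => False

lemma r0_closed {Y : N K Z} {δ : List (N K Z ⊕ Tm K Γ)} (h : R0 Z a₀ i M (Y, δ)) :
    ∀ B, inl B ∈ δ → isE B := by
  cases h <;> simp [isE]

lemma r0_of {Y : N K Z} {δ : List (N K Z ⊕ Tm K Γ)} (h : (Y, δ) ∈ RP Ctl z₀ pre a₀ i M)
    (hY : isE Y) : R0 Z a₀ i M (Y, δ) := by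
  rcases h with h | h | h
  · exact h
  · cases h <;> exact absurd hY id
  · have h1 : Y = .Bl := congrArg Prod.fst h
    subst h1
    exact absurd hY id

lemma old_complete (hN : Function.Injective eN) (hint : Hint Ctl z₀ pre a₀ i M P f g eN eT)
    {α : St} {w : List ℕ} (h : GenL P α w) :
    (∀ X, inl X ∈ α → ∃ Y, f X = eN Y ∧ isE Y) →
      GenL (PP a₀ i M P Lb f g eN eT) (ren α) w := by
  induction h with
  | nil => intro _; exact .nil
  | term a β w _ ih => exact fun hX => .term _ _ _ (ih fun X h => hX X (List.mem_cons_of_mem _ h))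
  | nt A γ β u w hA _ _ ih₁ ih₂ =>
    intro hX
    obtain ⟨Y, hY, hE⟩ := hX A List.mem_cons_self
    obtain ⟨Y', δ, h1, h2, h3⟩ := hint A γ hA
    have : Y' = Y := hN (by rw [← h2, hY])
    subst this
    have h4 := r0_of h1 hE
    refine .nt _ _ _ _ _ (.old A γ hA Y' δ h4 h2 h3) (ih₁ ?_)
      (ih₂ fun X h => hX X (List.mem_cons_of_mem _ h))
    intro B hB
    have h5 : Sum.map f g (inl B) ∈ γ.map (Sum.map f g) := List.mem_map.2 ⟨_, hB, rfl⟩
    rw [h3, List.mem_map] at h5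
    obtain ⟨y, hy, h6⟩ := h5
    cases y with
    | inr t => simp at h6
    | inl C =>
      rw [Sum.map_inl, Sum.map_inl, inl.injEq] at h6
      exact ⟨C, h6.symm, r0_closed h4 C hy⟩

lemma pre_inr {γ : St} : ∀ {u' : List ℕ}, γ.map (Sum.map f g) = u'.map inr →
    ∃ u : List ℕ, γ = u.map inr ∧ u.map g = u' := by
  induction γ with
  | nil =>
    intro u' h
    cases u' with
    | nil => exact ⟨[], rfl, rfl⟩
    | cons a u' => simp at h
  | cons x γ ih =>
    intro u' h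
    cases u' with
    | nil => simp at h
    | cons a u' =>
      rw [List.map_cons, List.map_cons, List.cons.injEq] at h
      cases x with
      | inl A => simp at h
      | inr b =>
        obtain ⟨u, rfl, rfl⟩ := ih h.2
        have h1 := h.1
        rw [Sum.map_inr, inr.injEq] at h1
        exact ⟨b :: u, rfl, by rw [List.map_cons, h1]⟩

theorem lang_iff (hN : Function.Injective eN) (hint : Hint Ctl z₀ pre a₀ i M P f g eN eT)
    (hm : ∀ p ∈ P, p.2.length ≤ m) (hne : ∀ p ∈ P, p.2 ≠ []) (hLb : H + m + 3 ≤ Lb)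
    (hH : 1 ≤ H)
    (hgood : ∀ bs : List (List (Option (Act K Γ))), Good a₀ bs →
      (∀ b ∈ bs, IsBl Ctl z₀ pre b) → bs.length ≤ H)
    {X₀ : ℕ} (hX₀ : f X₀ = eN .S) (w : List ℕ) :
    GenL (PP a₀ i M P Lb f g eN eT) [inl (.old X₀)] w ↔ GenL P [inl X₀] w := by
  constructor
  · intro h; exact ppr_sound h
  · intro h
    obtain ⟨γ, hγ, hg⟩ := genL_single_iff.1 h
    obtain ⟨Y, δ, h1, h2, h3⟩ := hint X₀ γ hγ
    have : Y = .S := hN (by rw [← h2, hX₀])
    subst this
    rcases h1 with h1 | h1 | h1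
    · refine genL_single_iff.2 ⟨_, .old X₀ γ hγ _ δ h1 h2 h3, old_complete hN hint hg ?_⟩
      intro B hB
      have h5 : Sum.map f g (inl B) ∈ γ.map (Sum.map f g) := List.mem_map.2 ⟨_, hB, rfl⟩
      rw [h3, List.mem_map] at h5
      obtain ⟨y, hy, h6⟩ := h5
      cases y with
      | inr t => simp at h6
      | inl C =>
        rw [Sum.map_inl, Sum.map_inl, inl.injEq] at h6
        exact ⟨C, h6.symm, r0_closed h1 C hy⟩
    · cases h1 with
      | longA =>
        rw [List.map_append] at h3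
        obtain ⟨x, y, rfl, h4, h5⟩ := List.map_eq_append_iff.1 h3
        have e : (List.replicate M (dl : N K Z ⊕ Tm K Γ)).map (Sum.map eN eT) =
            (List.replicate M (eT .dol)).map inr := by
          simp
        rw [e] at h4
        obtain ⟨u, rfl, hu⟩ := pre_inr h4
        obtain ⟨Xa, rfl, hXa⟩ : ∃ Xa, y = [inl Xa] ∧ f Xa = eN .A := by
          match y, h5 with
          | [], h5 => simp at h5
          | _ :: _ :: _, h5 => simp at h5
          | [inr a], h5 => simp at h5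
          | [inl A], h5 => exact ⟨A, rfl, by simpa using h5⟩
        obtain ⟨u₁, w', rfl, h6, h7⟩ := hg.split
        rw [genL_map_inr_iff] at h6
        subst h6
        obtain ⟨bs, hbs⟩ := da_of_gen hN hint _ Xa w' rfl hXa h7
        by_cases hG : Good a₀ bs
        · refine genL_single_iff.2 ⟨_, .longT X₀ Xa _ hγ hu hX₀, ?_⟩
          exact (genL_terminals _).append (da_tr hN hint hm hne hLb hbs ⟨_, hγ, by simp⟩
            (hgood bs hG (da_bl hbs)))
        · refine genL_single_iff.2 ⟨_, .longE X₀ Xa _ hγ hu hX₀, ?_⟩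
          exact (genL_terminals _).append (da_eb hN hint hm hne hLb hH hbs hG)
    · exact absurd (congrArg Prod.fst h1) (by simp [vR])

end complete

end Pool.Agent.Helper91.GH
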