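import Mathlib
import Pool.Agent.Helper91.GH.Posit

/-!
# Equality of the families when there are finitely many halting inputs
-/

set_option autoImplicit false

namespace Pool.Agent.Helper91.GH

open Sum Pool.Agent.Helper88.GF

section bound

variable {K Γ Z : Type} [DecidableEq K] [DecidableEq Γ]

variable {Ctl : Z → Act K Γ → Option Z → Prop} {z₀ : Z} {pre : List (Act K Γ)} {a₀ : Act K Γ}

omit [DecidableEq K] [DecidableEq Γ] in
lemma cnt_map_some (u : List (Act K Γ)) : cnt (u.map some) = 0 := by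
  simp [cnt]

omit [DecidableEq K] [DecidableEq Γ] in
lemma cnt_repl (j : ℕ) : cnt (List.replicate j (none : Option (Act K Γ))) = j := by
  unfold cnt
  rw [List.countP_replicate]
  rfl

omit [DecidableEq K] [DecidableEq Γ] in
lemma cnt_block (pre : List (Act K Γ)) (j : ℕ) (u : List (Act K Γ)) :
    cnt (pre.map some ++ (List.replicate j none ++ u.map some)) = j := by
  rw [cnt_append, cnt_append, cnt_map_some, cnt_map_some, cnt_repl]; omega

omit [DecidableEq K] [DecidableEq Γ] in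
lemma act_block (pre : List (Act K Γ)) (j : ℕ) (u : List (Act K Γ)) :
    (pre.map some ++ (List.replicate j none ++ u.map some)).map (act a₀) =
      (pre ++ List.replicate j a₀) ++ u := by
  simp only [List.map_append, List.map_map, List.map_replicate, List.append_assoc]
  have h : ∀ w : List (Act K Γ), w.map (act a₀ ∘ some) = w := by
    intro w
    induction w with
    | nil => rfl
    | cons a w ih => rw [List.map_cons, ih]; rfl
  rw [h, h]
  rfl

lemma halts_of_block {b : List (Option (Act K Γ))} (hb : IsBl Ctl z₀ pre b)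
    (hk : ∀ k, runL a₀ k b [] ≠ none) : Halts Ctl z₀ (pre ++ List.replicate (cnt b) a₀) := by
  obtain ⟨j, u, rfl, hu⟩ := hb
  rw [cnt_block]
  refine ⟨u, hu, fun k => ?_⟩
  have := hk k
  unfold runL at this
  rwa [act_block] at this

lemma good_bound (hfin : {j : ℕ | Halts Ctl z₀ (pre ++ List.replicate j a₀)}.Finite) :
    ∃ H : ℕ, 1 ≤ H ∧ ∀ bs : List (List (Option (Act K Γ))), Good a₀ bs →
      (∀ b ∈ bs, IsBl Ctl z₀ pre b) → bs.length ≤ H := by
  obtain ⟨J, hJ⟩ := hfin.bddAbove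
  refine ⟨J + 1, by omega, fun bs hg hb => ?_⟩
  have h1 : (bs.map cnt).IsChain (· < ·) := (List.isChain_map cnt).2 hg.2
  have h2 : (bs.map cnt).Nodup := (List.isChain_iff_pairwise.1 h1).imp ne_of_lt
  have h3 : (bs.map cnt).toFinset ⊆ Finset.range (J + 1) := by
    intro x hx
    rw [List.mem_toFinset, List.mem_map] at hx
    obtain ⟨b, hb', rfl⟩ := hx
    rw [Finset.mem_range]
    have := hJ (halts_of_block (hb b hb') (hg.1 b hb'))
    omega
  have h4 := Finset.card_le_card h3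
  rw [List.toFinset_card_of_nodup h2, List.length_map, Finset.card_range] at h4
  exact h4

end bound

/-- encoding of rules -/
def encR {K Γ Z : Type} (eN : N K Z → ℕ) (eT : Tm K Γ → ℕ) (p : Ru K Γ Z) : Pr :=
  (eN p.1, p.2.map (Sum.map eN eT))

section pos

variable {K Γ Z : Type} [DecidableEq K] [DecidableEq Γ]

variable {Ctl : Z → Act K Γ → Option Z → Prop} {z₀ : Z} {pre : List (Act K Γ)} {a₀ : Act K Γ}
  {i : Tm K Γ → ℕ} {M : ℕ} {eN : N K Z → ℕ} {eT : Tm K Γ → ℕ}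

lemma r0_ne {q : Ru K Γ Z} (h : R0 Z a₀ i M q) : q.2 ≠ [] := by
  cases h <;> simp

lemma r1_ne {q : Ru K Γ Z} (h : R1 Ctl z₀ M q) : q.2 ≠ [] := by
  cases h <;> simp

lemma rp_ne {q : Ru K Γ Z} (h : q ∈ RP Ctl z₀ pre a₀ i M) : q.2 ≠ [] := by
  rcases h with h | h | h
  · exact r0_ne h
  · exact r1_ne h
  · subst h; simp [vR]

theorem fam_pos [Finite K] [Finite Z] (hN : Function.Injective eN) (G₀ G₁ : Gram)
    (h0 : G₀.1 = eN .S) (h1 : G₁.1 = eN .S)
    (hG₀ : ∀ p, p ∈ G₀.2 ↔ ∃ q, R0 Z a₀ i M q ∧ encR eN eT q = p)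
    (hG₁ : ∀ p ∈ G₁.2, ∃ q ∈ RP Ctl z₀ pre a₀ i M, encR eN eT q = p)
    (hfin : {j : ℕ | Halts Ctl z₀ (pre ++ List.replicate j a₀)}.Finite) :
    Fam G₁ ⊆ Fam G₀ := by
  rintro L ⟨G', ⟨f, g, hf, hI⟩, rfl⟩
  have hint : Hint Ctl z₀ pre a₀ i M (prods G') f g eN eT := by
    intro X β h
    obtain ⟨⟨Y, δ⟩, hq, he⟩ := hG₁ _ (hI (X, β) h)
    simp only [encR, Prod.mk.injEq] at he
    exact ⟨Y, δ, hq, he.1.symm, he.2.symm⟩
  have hP : (prods G').Finite := List.finite_toSet _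
  obtain ⟨m, hm⟩ : ∃ m, ∀ p ∈ prods G', p.2.length ≤ m := by
    obtain ⟨m, hm⟩ := (hP.image fun p => p.2.length).bddAbove
    exact ⟨m, fun p hp => hm ⟨p, hp, rfl⟩⟩
  obtain ⟨B₀, hB₀⟩ : ∃ B₀, ∀ p, R0 Z a₀ i M p → p.2.length ≤ B₀ := by
    have hP₀ : (prods G₀).Finite := List.finite_toSet _
    obtain ⟨m, hm⟩ := (hP₀.image fun p => p.2.length).bddAbove
    refine ⟨m, fun p hp => ?_⟩
    have := hm ⟨encR eN eT p, (hG₀ _).2 ⟨p, hp, rfl⟩, rfl⟩
    simpa [encR] using this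
  have hne : ∀ p ∈ prods G', p.2 ≠ [] := by
    rintro ⟨X, β⟩ hp he
    obtain ⟨Y, δ, h2, h3, h4⟩ := hint X β hp
    simp only at he
    subst he
    have h5 : δ = [] := by simpa using h4.symm
    subst h5
    exact rp_ne h2 rfl
  obtain ⟨H, hH, hgood⟩ := good_bound hfin
  have hfX : f G'.1 = eN .S := by rw [hf, h1]
  obtain ⟨enc, henc⟩ := exists_injective_nat (NN K Z)
  obtain ⟨G2, hG2, hG2p, hG2L⟩ := exists_gram enc henc
    (PP a₀ i M (prods G') (H + m + 3) f g eN eT) (pp_finite (by omega) hP hB₀) (.old G'.1)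
  have hf2 : ∀ x, Function.extend enc (Fn f eN) 0 (enc x) = Fn f eN x :=
    fun x => henc.extend_apply _ _ x
  refine ⟨G2, ⟨Function.extend enc (Fn f eN) 0, g, ?_, ?_⟩, ?_⟩
  · rw [hG2, hf2, h0]; exact hfX
  · intro p hp
    obtain ⟨⟨x, γ⟩, hq, rfl⟩ := (hG2p p).1 hp
    obtain ⟨Y, δ, h2, h3, h4⟩ := ppr_interp hq
    simp only
    rw [hf2, List.map_map]
    have e : (Sum.map (Function.extend enc (Fn f eN) 0) g) ∘ (Sum.map enc id) =
        Sum.map (Fn f eN) g := by
      ext x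
      cases x with
      | inl y => simp [hf2]
      | inr y => simp
    rw [e, h3, h4]
    exact (hG₀ _).2 ⟨(Y, δ), h2, rfl⟩
  · ext w
    rw [hG2L, mem_Lang_iff]
    exact lang_iff hN hint hm hne le_rfl hH hgood hfX w

end pos

end Pool.Agent.Helper91.GH
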