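import Mathlib
import Pool.Agent.Helper91.GH.Fams

/-!
# The families differ when there are infinitely many halting inputs
-/

set_option autoImplicit false

namespace Pool.Agent.Helper91.GH

open Sum Pool.Agent.Helper88.GF

section words

variable {K Γ Z : Type}

/-- number of pairing letters -/
def cAl (w : List (Tm K Γ)) : ℕ := w.countP fun t => match t with
  | .al => true
  | _ => false

/-- number of final letters -/
def cFin (w : List (Tm K Γ)) : ℕ := w.countP fun t => match t with
  | .fin => true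
  | _ => false

lemma cAl_append (u v : List (Tm K Γ)) : cAl (u ++ v) = cAl u + cAl v := by simp [cAl]

lemma cFin_append (u v : List (Tm K Γ)) : cFin (u ++ v) = cFin u + cFin v := by simp [cFin]

lemma cAl_lt (b : List (Option (Act K Γ))) : cAl (b.map Tm.lt) = 0 := by
  simp [cAl]

lemma cFin_lt (b : List (Option (Act K Γ))) : cFin (b.map Tm.lt) = 0 := by
  simp [cFin]

lemma cAl_repl (n : ℕ) : cAl (List.replicate n (.al : Tm K Γ)) = n := by
  unfold cAl
  rw [List.countP_replicate]
  rfl

lemma cFin_repl (n : ℕ) : cFin (List.replicate n (.al : Tm K Γ)) = 0 := by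
  unfold cFin
  rw [List.countP_replicate]
  rfl

lemma flat_cons (b : List (Option (Act K Γ))) (bs : List (List (Option (Act K Γ)))) :
    flat (b :: bs) = b.map Tm.lt ++ .fin :: flat bs := by
  simp [flat]

lemma flat_nil : flat ([] : List (List (Option (Act K Γ)))) = [] := rfl

lemma cAl_flat (bs : List (List (Option (Act K Γ)))) : cAl (flat bs) = 0 := by
  induction bs with
  | nil => rfl
  | cons b bs ih =>
    rw [flat_cons, cAl_append, cAl_lt]
    have : cAl (.fin :: flat bs) = cAl (flat bs) := by simp [cAl]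
    rw [this, ih]

lemma cFin_flat (bs : List (List (Option (Act K Γ)))) : cFin (flat bs) = bs.length := by
  induction bs with
  | nil => rfl
  | cons b bs ih =>
    rw [flat_cons, cFin_append, cFin_lt]
    have : cFin (.fin :: flat bs) = cFin (flat bs) + 1 := by simp [cFin]
    rw [this, ih, List.length_cons]
    omega

lemma block_inj {b b' : List (Option (Act K Γ))} : ∀ {x x' : List (Tm K Γ)},
    b.map Tm.lt ++ .fin :: x = b'.map Tm.lt ++ .fin :: x' → b = b' ∧ x = x' := by
  induction b generalizing b' with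
  | nil =>
    intro x x' h
    cases b' with
    | nil => simpa using h
    | cons l b' => simp at h
  | cons l b ih =>
    intro x x' h
    cases b' with
    | nil => simp at h
    | cons l' b' =>
      simp only [List.map_cons, List.cons_append, List.cons.injEq, Tm.lt.injEq] at h
      obtain ⟨rfl, h⟩ := h
      obtain ⟨rfl, rfl⟩ := ih h
      exact ⟨rfl, rfl⟩

lemma flat_inj {bs : List (List (Option (Act K Γ)))} : ∀ {bs' : List (List (Option (Act K Γ)))},
    flat bs = flat bs' → bs = bs' := by
  induction bs with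
  | nil =>
    intro bs' h
    cases bs' with
    | nil => rfl
    | cons b bs' => rw [flat_nil, flat_cons] at h; simp at h
  | cons b bs ih =>
    intro bs' h
    cases bs' with
    | nil => rw [flat_nil, flat_cons] at h; simp at h
    | cons b' bs' =>
      rw [flat_cons, flat_cons] at h
      obtain ⟨rfl, h1⟩ := block_inj h
      rw [ih h1]

lemma word_inj {bs bs' : List (List (Option (Act K Γ)))} (h : word bs = word bs') :
    bs = bs' := by
  have h1 := congrArg cAl h
  unfold word at h h1
  rw [cAl_append, cAl_append, cAl_repl, cAl_repl, cAl_flat, cAl_flat] at h1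
  have h2 : bs.length - 1 = bs'.length - 1 := by omega
  rw [h2] at h
  exact flat_inj (List.append_cancel_left h)

end words

section seqs

variable {K Γ Z : Type} [DecidableEq K] [DecidableEq Γ]

variable {Ctl : Z → Act K Γ → Option Z → Prop} {z₀ : Z} {pre : List (Act K Γ)} {a₀ : Act K Γ}

/-- long sequences of good blocks -/
lemma exists_good (hinf : {j : ℕ | Halts Ctl z₀ (pre ++ List.replicate j a₀)}.Infinite) :
    ∀ n : ℕ, ∃ bs : List (List (Option (Act K Γ))), bs.length = n ∧ Good a₀ bs ∧
      ∀ b ∈ bs, IsBl Ctl z₀ pre b := by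
  intro n
  induction n with
  | zero => exact ⟨[], rfl, ⟨by simp, by simp⟩, by simp⟩
  | succ n ih =>
    obtain ⟨bs, hl, hg, hb⟩ := ih
    obtain ⟨j, ⟨u, hu, hk⟩, hj⟩ := hinf.exists_gt ((bs.map cnt).sum)
    refine ⟨bs ++ [pre.map some ++ (List.replicate j none ++ u.map some)], by simp [hl],
      ⟨?_, ?_⟩, ?_⟩
    · intro c hc k
      rw [List.mem_append, List.mem_singleton] at hc
      rcases hc with hc | rfl
      · exact hg.1 c hc k
      · unfold runL
        rw [act_block]
        exact hk k
    · rw [List.isChain_append]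
      refine ⟨hg.2, chain_single _, ?_⟩
      intro x hx y hy
      simp only [Option.mem_def, Option.some.injEq, List.head?_cons] at hx hy
      subst hy
      rw [cnt_block]
      have h1 : x ∈ bs := List.mem_of_getLast? hx
      have h2 : cnt x ≤ (bs.map cnt).sum :=
        List.single_le_sum (by simp) _ (List.mem_map.2 ⟨x, h1, rfl⟩)
      omega
    · intro c hc
      rw [List.mem_append, List.mem_singleton] at hc
      rcases hc with hc | rfl
      · exact hb c hc
      · exact ⟨j, u, rfl, hu⟩

variable (Ctl z₀ pre a₀)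

/-- frames and the rules of sequences -/
def RS (i : Tm K Γ → ℕ) (M : ℕ) : Set (Ru K Γ Z) :=
  {p | (R0 Z a₀ i M p ∧ p.1 = .S ∧ ∀ B, inl B ∉ p.2) ∨ R1 Ctl z₀ M p ∨ p = vR pre}

variable {Ctl z₀ pre a₀}
variable {i : Tm K Γ → ℕ} {M : ℕ}

lemma rs_sub : RS Ctl z₀ pre a₀ i M ⊆ RP Ctl z₀ pre a₀ i M := by
  rintro p (h | h | h)
  · exact Or.inl h.1
  · exact Or.inr (Or.inl h)
  · exact Or.inr (Or.inr h)

lemma gen_C {R : Set (Ru K Γ Z)} (hR : ∀ p, R1 Ctl z₀ M p → p ∈ R) {z : Z}
    {u : List (Act K Γ)} (h : CPath Ctl z u) :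
    GenL R [inl (.C z)] ((u.map some).map Tm.lt ++ [Tm.fin]) := by
  induction h with
  | last z a h => exact genL_single_iff.2 ⟨_, hR _ (.c2 z a h), .term _ _ _ (.term _ _ _ .nil)⟩
  | step z a z' w h _ ih => exact genL_single_iff.2 ⟨_, hR _ (.c3 z a z' h), .term _ _ _ ih⟩

lemma gen_In {R : Set (Ru K Γ Z)} (hR : ∀ p, R1 Ctl z₀ M p → p ∈ R)
    {u : List (Act K Γ)} (h : CPath Ctl z₀ u) (j : ℕ) :
    GenL R [inl .In] ((List.replicate j none ++ u.map some).map Tm.lt ++ [Tm.fin]) := by
  induction j with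
  | zero =>
    cases h with
    | last _ a h => exact genL_single_iff.2 ⟨_, hR _ (.in2 a h), .term _ _ _ (.term _ _ _ .nil)⟩
    | step _ a z' w h hw =>
      exact genL_single_iff.2 ⟨_, hR _ (.in3 a z' h), .term _ _ _ (gen_C hR hw)⟩
  | succ j ih => exact genL_single_iff.2 ⟨_, hR _ .in1, .term _ _ _ ih⟩

lemma gen_Bl {R : Set (Ru K Γ Z)} (hR : ∀ p, R1 Ctl z₀ M p → p ∈ R) (hv : vR pre ∈ R)
    {b : List (Option (Act K Γ))} (h : IsBl Ctl z₀ pre b) :
    GenL R [inl .Bl] (b.map Tm.lt ++ [Tm.fin]) := by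
  obtain ⟨j, u, rfl, hu⟩ := h
  refine genL_single_iff.2 ⟨_, hv, ?_⟩
  have h1 := gen_In hR hu j
  have e : (pre.map fun a => (inr (.lt (some a)) : N K Z ⊕ Tm K Γ)) =
      (pre.map fun a => (Tm.lt (some a) : Tm K Γ)).map inr := by simp
  rw [e]
  have h2 := (genL_terminals (P := R) (pre.map fun a => (Tm.lt (some a) : Tm K Γ))).append h1
  have e2 : (pre.map some ++ (List.replicate j none ++ u.map some)).map
      (Tm.lt : _ → Tm K Γ) ++ [Tm.fin] = (pre.map fun a => (Tm.lt (some a) : Tm K Γ)) ++
        ((List.replicate j none ++ u.map some).map Tm.lt ++ [Tm.fin]) := by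
    simp [Function.comp_def]
  rw [e2]
  exact h2

lemma gen_A {R : Set (Ru K Γ Z)} (hR : ∀ p, R1 Ctl z₀ M p → p ∈ R) (hv : vR pre ∈ R)
    {bs : List (List (Option (Act K Γ)))} : bs ≠ [] → (∀ b ∈ bs, IsBl Ctl z₀ pre b) →
    GenL R [inl .A] (word bs) := by
  induction bs using List.reverseRecOn with
  | nil => intro h; exact absurd rfl h
  | append_singleton bs b ih =>
    intro _ hb
    have h1 : GenL R [inl .Bl] (b.map Tm.lt ++ [Tm.fin]) := gen_Bl hR hv (hb b (by simp))
    by_cases hbs : bs = []
    · subst hbs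
      rw [List.nil_append, word_single]
      exact genL_single_iff.2 ⟨_, hR _ .a2, h1⟩
    · rw [word_append hbs]
      refine genL_single_iff.2 ⟨_, hR _ .a1, .term _ _ _ ?_⟩
      exact GenL.append (α := [inl .A]) (ih hbs fun b' hb' => hb b' (by simp [hb'])) h1

lemma gen_seq {bs : List (List (Option (Act K Γ)))} (hbs : bs ≠ [])
    (hb : ∀ b ∈ bs, IsBl Ctl z₀ pre b) :
    GenL (RS Ctl z₀ pre a₀ i M) [inl .S] (List.replicate M .dol ++ word bs) := by
  refine genL_single_iff.2 ⟨_, Or.inr (Or.inl .longA), ?_⟩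
  exact gen_repl M .dol (gen_A (R := RS Ctl z₀ pre a₀ i M) (fun p hp => Or.inr (Or.inl hp))
    (Or.inr (Or.inr rfl)) hbs hb)

lemma rs_frame0 : GenL (RS Ctl z₀ pre a₀ i M) [inl .S] [.dol, .dol] :=
  genL_single_iff.2 ⟨_, Or.inl ⟨.frame0, rfl, by simp⟩, .term _ _ _ (.term _ _ _ .nil)⟩

lemma rs_frame (t : Tm K Γ) (h : t ≠ .dol) : GenL (RS Ctl z₀ pre a₀ i M) [inl .S]
    (List.replicate (i t + 2) .dol ++ [t]) :=
  genL_single_iff.2 ⟨_, Or.inl ⟨.frame t h, rfl, by simp⟩,
    gen_repl (i t + 2) .dol (.term _ _ _ .nil)⟩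

/-- words of the restricted grammar -/
lemma rs_cases {v : List (Tm K Γ)} (h : GenL (RS Ctl z₀ pre a₀ i M) [inl .S] v) :
    v = [.dol, .dol] ∨ (∃ t, v = List.replicate (i t + 2) .dol ++ [t]) ∨
      ∃ bs : List (List (Option (Act K Γ))), bs ≠ [] ∧ v = List.replicate M .dol ++ word bs := by
  obtain ⟨δ, hδ, hg⟩ := genL_single_iff.1 h
  rcases hδ with ⟨hδ, -, hB⟩ | hδ | hδ
  · cases hδ with
    | frame0 =>
      left
      rw [genL_term_iff] at hg
      obtain ⟨v, rfl, hg⟩ := hg
      rw [genL_term_iff] at hg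
      obtain ⟨v, rfl, hg⟩ := hg
      rw [genL_nil_iff] at hg
      subst hg
      rfl
    | frame t h =>
      right; left
      refine ⟨t, ?_⟩
      have e : (List.replicate (i t + 2) (dl : N K Z ⊕ Tm K Γ) ++ [inr t]) =
          (List.replicate (i t + 2) (Tm.dol : Tm K Γ) ++ [t]).map inr := by simp
      rw [e, genL_map_inr_iff] at hg
      exact hg
    | longE => exact absurd (by simp) (hB .Eb)
    | longT => exact absurd (by simp) (hB .T)
  · cases hδ with
    | longA =>
      right; right
      have e : (List.replicate M (dl : N K Z ⊕ Tm K Γ)) =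
          (List.replicate M (Tm.dol : Tm K Γ)).map inr := by simp
      obtain ⟨u, v', rfl, h1, h2⟩ := hg.split
      rw [e, genL_map_inr_iff] at h1
      subst h1
      obtain ⟨bs, h3, rfl, -⟩ := sound Ctl z₀ pre (h2.mono rs_sub)
      exact ⟨bs, h3, rfl⟩
  · exact absurd (congrArg Prod.fst hδ) (by simp [vR])

/-- words of the error grammar -/
lemma r0_cases {v : List (Tm K Γ)} (h : GenL (P0 Z a₀ i M) [inl .S] v) :
    v = [.dol, .dol] ∨ (∃ t, v = List.replicate (i t + 2) .dol ++ [t]) ∨
      ∃ v', v = List.replicate M .dol ++ v' := by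
  obtain ⟨δ, hδ, hg⟩ := genL_single_iff.1 h
  have long : ∀ Y : N K Z, GenL (P0 Z a₀ i M) (List.replicate M dl ++ [inl Y]) v →
      ∃ v', v = List.replicate M .dol ++ v' := by
    intro Y hg
    have e : (List.replicate M (dl : N K Z ⊕ Tm K Γ)) =
        (List.replicate M (Tm.dol : Tm K Γ)).map inr := by simp
    obtain ⟨u, v', rfl, h1, h2⟩ := hg.split
    rw [e, genL_map_inr_iff] at h1
    subst h1
    exact ⟨v', rfl⟩
  have hδ' : R0 Z a₀ i M (.S, δ) := hδ
  cases hδ' with
  | frame0 =>
    left
    rw [genL_term_iff] at hg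
    obtain ⟨v, rfl, hg⟩ := hg
    rw [genL_term_iff] at hg
    obtain ⟨v, rfl, hg⟩ := hg
    rw [genL_nil_iff] at hg
    subst hg
    rfl
  | frame t h =>
    right; left
    refine ⟨t, ?_⟩
    have e : (List.replicate (i t + 2) (dl : N K Z ⊕ Tm K Γ) ++ [inr t]) =
        (List.replicate (i t + 2) (Tm.dol : Tm K Γ) ++ [t]).map inr := by simp
    rw [e, genL_map_inr_iff] at hg
    exact hg
  | longE => exact Or.inr (Or.inr (long _ hg))
  | longT => exact Or.inr (Or.inr (long _ hg))

end seqs

section pump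

variable {P : Set Pr}

lemma step_gen {s : ℕ → ℕ} {k a : ℕ} (hs : ∀ l < k, (s l, [inr a, inl (s (l + 1))]) ∈ P)
    {w : List ℕ} : ∀ d l, l + d ≤ k → GenL P [inl (s (l + d))] w →
      GenL P [inl (s l)] (List.replicate d a ++ w) := by
  intro d
  induction d with
  | zero => intro l _ h; exact h
  | succ d ih =>
    intro l hl h
    have h1 := ih (l + 1) (by omega) (by rw [show l + 1 + d = l + (d + 1) by omega]; exact h)
    exact genL_single_iff.2 ⟨_, hs l (by omega), .term _ _ _ h1⟩

/-- pumping the first letters -/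
theorem pump {s : ℕ → ℕ} {k a : ℕ} (hs : ∀ l < k, (s l, [inr a, inl (s (l + 1))]) ∈ P)
    (hP : P.Finite) (hk : (hP.image Prod.fst).toFinset.card < k) {w : List ℕ}
    (hw : GenL P [inl (s k)] w) :
    ∃ d, 1 ≤ d ∧ GenL P [inl (s 0)] (List.replicate (k + d) a ++ w) := by
  classical
  have hc : (hP.image Prod.fst).toFinset.card < (Finset.range k).card := by
    rw [Finset.card_range]; exact hk
  obtain ⟨x, hx, y, hy, hne, he⟩ := Finset.exists_ne_map_eq_of_card_lt_of_maps_to hc
    (f := s) (fun l hl => by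
      rw [Finset.coe_range, Set.mem_Iio] at hl
      rw [Set.Finite.coe_toFinset]
      exact ⟨_, hs l hl, rfl⟩)
  rw [Finset.mem_range] at hx hy
  wlog hxy : x < y generalizing x y
  · exact this y hy x hx hne.symm he.symm (by omega)
  refine ⟨y - x, by omega, ?_⟩
  have h1 : GenL P [inl (s y)] (List.replicate (k - y) a ++ w) :=
    step_gen hs (k - y) y (by omega) (by rw [show y + (k - y) = k by omega]; exact hw)
  have h2 : GenL P [inl (s x)] (List.replicate (y - x) a ++ (List.replicate (k - y) a ++ w)) :=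
    step_gen hs (y - x) x (by omega) (by rw [show x + (y - x) = y by omega]; exact h1)
  rw [he] at h2
  have h3 := step_gen hs (y - x) x (by omega) (by rw [show x + (y - x) = y by omega]; exact h2)
  have h4 := step_gen hs x 0 (by omega) (by rw [Nat.zero_add]; exact h3)
  have e : List.replicate x a ++ (List.replicate (y - x) a ++
      (List.replicate (y - x) a ++ (List.replicate (k - y) a ++ w))) =
      List.replicate (k + (y - x)) a ++ w := by
    rw [← List.append_assoc, ← List.append_assoc, ← List.append_assoc]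
    rw [List.replicate_append_replicate, List.replicate_append_replicate,
      List.replicate_append_replicate]
    congr 2
    omega
  rw [e] at h4
  exact h4

end pump

end Pool.Agent.Helper91.GH
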