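import Mathlib
import Pool.Agent.Helper91.GH.Negat

/-!
# The language of all sequences is not in the family of the error grammar
-/

set_option autoImplicit false

namespace Pool.Agent.Helper91.GH

open Sum Pool.Agent.Helper88.GF

section neg

variable {K Γ Z : Type} [DecidableEq K] [DecidableEq Γ]

variable {Ctl : Z → Act K Γ → Option Z → Prop} {z₀ : Z} {pre : List (Act K Γ)} {a₀ : Act K Γ}
  {i : Tm K Γ → ℕ} {M : ℕ} {eN : N K Z → ℕ} {eT : Tm K Γ → ℕ}

theorem transfer0 {R : Set (Ru K Γ Z)} {P : Set Pr} {f g : ℕ → ℕ} (hN : Function.Injective eN)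
    (hint : ∀ X β, (X, β) ∈ P → ∃ Y δ, (Y, δ) ∈ R ∧ f X = eN Y ∧
      β.map (Sum.map f g) = δ.map (Sum.map eN eT))
    {α : St} {w : List ℕ} (h : GenL P α w) {δ : List (N K Z ⊕ Tm K Γ)}
    (hδ : α.map (Sum.map f g) = δ.map (Sum.map eN eT)) :
    ∃ v, w.map g = v.map eT ∧ GenL R δ v := by
  have h1 := h.map (P' := (fun p : Ru K Γ Z => (eN p.1, p.2.map (Sum.map eN eT))) '' R) f g
    (fun X β hX => by
      obtain ⟨Y, δ, h1, h2, h3⟩ := hint X β hX
      exact ⟨(Y, δ), h1, by rw [h2, h3]⟩)
  rw [hδ] at h1
  exact GenL.of_map eN eT hN h1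

/-- states of the right-linear part -/
lemma exists_states {P : Set Pr} {f g : ℕ → ℕ} (hN : Function.Injective eN)
    (hint : ∀ X β, (X, β) ∈ P → ∃ Y δ, R0 Z a₀ i M (Y, δ) ∧ f X = eN Y ∧
      β.map (Sum.map f g) = δ.map (Sum.map eN eT)) {a : ℕ} {rest : List ℕ} (hr : rest ≠ []) :
    ∀ (k : ℕ) (X : ℕ), f X = eN .T → GenL P [inl X] (List.replicate k a ++ rest) →
      ∃ s : ℕ → ℕ, s 0 = X ∧ (∀ l < k, (s l, [inr a, inl (s (l + 1))]) ∈ P) ∧
        GenL P [inl (s k)] rest := by
  intro k
  induction k with
  | zero =>
    intro X hX h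
    exact ⟨fun _ => X, rfl, by simp, h⟩
  | succ k ih =>
    intro X hX h
    rw [List.replicate_succ, List.cons_append] at h
    obtain ⟨γ, hγ, hg⟩ := genL_single_iff.1 h
    obtain ⟨Y, δ, h1, h2, h3⟩ := hint X γ hγ
    have : Y = .T := hN (by rw [← h2, hX])
    subst this
    cases h1 with
    | t1 t =>
      exfalso
      match γ, h3 with
      | [], h3 => simp at h3
      | _ :: _ :: _, h3 => simp at h3
      | [inl A], h3 => simp at h3
      | [inr b], h3 =>
        rw [genL_term_iff] at hg
        obtain ⟨v, h4, h5⟩ := hg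
        rw [genL_nil_iff] at h5
        subst h5
        rw [List.cons.injEq] at h4
        exact hr (List.append_eq_nil_iff.1 h4.2).2
    | t2 t =>
      match γ, h3 with
      | [], h3 => simp at h3
      | [_], h3 => simp at h3
      | _ :: _ :: _ :: _, h3 => simp at h3
      | [inl A, _], h3 => simp at h3
      | [inr b, inr c], h3 => simp at h3
      | [inr b, inl X'], h3 =>
        rw [genL_term_iff] at hg
        obtain ⟨v, h4, h5⟩ := hg
        rw [List.cons.injEq] at h4
        obtain ⟨rfl, rfl⟩ := h4
        have hX' : f X' = eN .T := by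
          simp only [List.map_cons, List.map_nil, Sum.map_inr, Sum.map_inl, List.cons.injEq,
            inr.injEq, inl.injEq, and_true] at h3
          exact h3.2
        obtain ⟨s, hs0, hs, hs'⟩ := ih X' hX' h5
        refine ⟨fun l => Nat.casesOn l X s, rfl, ?_, hs'⟩
        intro l hl
        cases l with
        | zero =>
          show (X, [inr a, inl (s 0)]) ∈ P
          rw [hs0]; exact hγ
        | succ l => exact hs l (by omega)

theorem fam_neg (hN : Function.Injective eN) (hT : Function.Injective eT)
    (hi : Function.Injective i) (hM : ∀ t, i t + 4 ≤ M) (G₀ G₁ : Gram)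
    (h0 : G₀.1 = eN .S) (h1 : G₁.1 = eN .S)
    (hG₀ : ∀ p ∈ G₀.2, ∃ q, R0 Z a₀ i M q ∧ encR eN eT q = p)
    (hG₁ : ∀ p, p ∈ G₁.2 ↔ ∃ q ∈ RS Ctl z₀ pre a₀ i M, encR eN eT q = p)
    (hinf : {j : ℕ | Halts Ctl z₀ (pre ++ List.replicate j a₀)}.Infinite) :
    Lang G₁ ∉ Fam G₀ := by
  rintro ⟨G', ⟨f, g, hf, hI⟩, hL⟩
  have hint : ∀ X β, (X, β) ∈ prods G' → ∃ Y δ, R0 Z a₀ i M (Y, δ) ∧ f X = eN Y ∧
      β.map (Sum.map f g) = δ.map (Sum.map eN eT) := by
    intro X β h
    obtain ⟨⟨Y, δ⟩, hq, he⟩ := hG₀ _ (hI (X, β) h)
    simp only [encR, Prod.mk.injEq] at he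
    exact ⟨Y, δ, hq, he.1.symm, he.2.symm⟩
  have hP : (prods G').Finite := List.finite_toSet _
  have hfX : f G'.1 = eN .S := by rw [hf, h0]
  have hM4 : 4 ≤ M := by have := hM .dol; omega
  -- words of the language
  have up : ∀ v : List (Tm K Γ), GenL (RS Ctl z₀ pre a₀ i M) [inl .S] v →
      GenL (prods G') [inl G'.1] (v.map eT) := by
    intro v hv
    rw [← mem_Lang_iff, hL, mem_Lang_iff, h1]
    exact hv.map (P' := prods G₁) eN eT fun A β hA => (hG₁ _).2 ⟨(A, β), hA, rfl⟩
  have down : ∀ x : List ℕ, GenL (prods G') [inl G'.1] x →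
      ∃ v, x = v.map eT ∧ GenL (RS Ctl z₀ pre a₀ i M) [inl .S] v := by
    intro x hx
    rw [← mem_Lang_iff, hL, mem_Lang_iff, h1] at hx
    have e : prods G₁ = (fun p : Ru K Γ Z => (eN p.1, p.2.map (Sum.map eN eT))) ''
        RS Ctl z₀ pre a₀ i M := by
      ext p; exact hG₁ p
    rw [e] at hx
    exact GenL.of_map (α := [inl .S]) eN eT hN hx
  have key : ∀ v : List (Tm K Γ), GenL (RS Ctl z₀ pre a₀ i M) [inl .S] v →
      ∃ v', (v.map eT).map g = v'.map eT ∧ GenL (P0 Z a₀ i M) [inl .S] v' := by
    intro v hv
    exact transfer0 (R := P0 Z a₀ i M) hN hint (up v hv) (δ := [inl .S]) (by simp [hfX])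
  -- the letters
  have gdol : g (eT .dol) = eT .dol := by
    obtain ⟨v', e, h⟩ := key _ rs_frame0
    have hlen := congrArg List.length e
    simp only [List.length_map, List.length_cons, List.length_nil] at hlen
    rcases r0_cases h with rfl | ⟨t, rfl⟩ | ⟨x, rfl⟩
    · simpa using e
    · simp only [List.length_append, List.length_replicate, List.length_cons,
        List.length_nil] at hlen
      omega
    · simp only [List.length_append, List.length_replicate] at hlen
      omega
  have gT : ∀ t, g (eT t) = eT t := by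
    intro t
    by_cases ht : t = .dol
    · subst ht; exact gdol
    obtain ⟨v', e, h⟩ := key _ (rs_frame t ht)
    have hlen := congrArg List.length e
    simp only [List.length_map, List.length_append, List.length_replicate, List.length_cons,
      List.length_nil] at hlen
    rcases r0_cases h with rfl | ⟨t', rfl⟩ | ⟨x, rfl⟩
    · simp at hlen
    · simp only [List.length_append, List.length_replicate, List.length_cons,
        List.length_nil] at hlen
      have htt : i t = i t' := by omega
      have := hi htt
      subst this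
      simp only [List.map_append, List.map_replicate, List.map_cons, List.map_nil] at e
      have := List.append_inj_right e (by simp)
      simpa using this
    · have := hM t
      simp only [List.length_append, List.length_replicate] at hlen
      omega
  have gid : ∀ v : List (Tm K Γ), (v.map eT).map g = v.map eT := by
    intro v
    rw [List.map_map]
    exact List.map_congr_left fun t _ => gT t
  have eT_inj : ∀ {u v : List (Tm K Γ)}, u.map eT = v.map eT → u = v :=
    fun h => List.map_injective_iff.2 hT h
  -- a long sequence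
  obtain ⟨bs, hl, hg, hb⟩ := exists_good hinf ((hP.image Prod.fst).toFinset.card + 2)
  have hbs : bs ≠ [] := by
    rintro rfl
    simp at hl
  have hx := up _ (gen_seq (i := i) (M := M) (a₀ := a₀) hbs hb)
  obtain ⟨γ, hγ, hgen⟩ := genL_single_iff.1 hx
  obtain ⟨Y, δ, hR, hY, hδ⟩ := hint _ γ hγ
  have hYS : Y = .S := hN (by rw [← hY, hfX])
  subst hYS
  obtain ⟨v', hv', hgv⟩ := transfer0 (R := P0 Z a₀ i M) hN hint hgen hδ
  rw [gid] at hv'
  have hv := eT_inj hv'
  subst hv
  have edol : (List.replicate M (dl : N K Z ⊕ Tm K Γ)) =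
      (List.replicate M (Tm.dol : Tm K Γ)).map inr := by simp
  cases hR with
  | frame0 =>
    have e : ([dl, dl] : List (N K Z ⊕ Tm K Γ)) = [(Tm.dol : Tm K Γ), .dol].map inr := rfl
    rw [e, genL_map_inr_iff] at hgv
    have := congrArg List.length hgv
    simp only [List.length_append, List.length_replicate, List.length_cons,
      List.length_nil] at this
    omega
  | frame t h =>
    have e : (List.replicate (i t + 2) (dl : N K Z ⊕ Tm K Γ) ++ [inr t]) =
        (List.replicate (i t + 2) (Tm.dol : Tm K Γ) ++ [t]).map inr := by simp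
    rw [e, genL_map_inr_iff] at hgv
    have hlen := congrArg List.length hgv
    have := hM t
    simp only [List.length_append, List.length_replicate, List.length_cons,
      List.length_nil] at hlen
    omega
  | longE =>
    obtain ⟨u, v', h2, h3, h4⟩ := hgv.split
    rw [edol, genL_map_inr_iff] at h3
    subst h3
    have h5 := List.append_cancel_left h2
    have h6 : GenL (RP Ctl z₀ pre a₀ i M) [inl .Eb] v' := h4.mono fun p hp => Or.inl hp
    obtain ⟨bs', h7, h8, h9⟩ := sound Ctl z₀ pre h6
    rw [← h5] at h8
    rw [← word_inj h8] at h9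
    exact h9 hg
  | longT =>
    rw [List.map_append] at hδ
    obtain ⟨x, y, rfl, h4, h5⟩ := List.map_eq_append_iff.1 hδ
    have e : (List.replicate M (dl : N K Z ⊕ Tm K Γ)).map (Sum.map eN eT) =
        (List.replicate M (eT .dol)).map inr := by
      simp
    rw [e] at h4
    obtain ⟨u, rfl, hu⟩ := pre_inr h4
    have hul : u.length = M := by
      have := congrArg List.length hu
      simpa using this
    obtain ⟨Xt, rfl, hXt⟩ : ∃ Xt, y = [inl Xt] ∧ f Xt = eN .T := by
      match y, h5 with
      | [], h5 => simp at h5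
      | _ :: _ :: _, h5 => simp at h5
      | [inr a], h5 => simp at h5
      | [inl A], h5 => exact ⟨A, rfl, by simpa using h5⟩
    obtain ⟨u₁, w', h2, h6, h7⟩ := hgen.split
    rw [genL_map_inr_iff] at h6
    subst h6
    rw [List.map_append, List.map_replicate] at h2
    obtain ⟨h8, h9⟩ := List.append_inj h2 (by simp [hul])
    subst h9
    unfold word at h7
    rw [List.map_append, List.map_replicate] at h7
    have hflat : (flat bs).map eT ≠ [] := by
      intro h
      rw [List.map_eq_nil_iff] at h
      have h' := congrArg cFin h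
      rw [cFin_flat] at h'
      have : cFin ([] : List (Tm K Γ)) = 0 := rfl
      omega
    obtain ⟨s, hs0, hs, hs'⟩ := exists_states hN hint hflat _ Xt hXt h7
    obtain ⟨d, hd, hgd⟩ := pump hs hP (by omega) hs'
    rw [hs0] at hgd
    have h10 : GenL (prods G') [inl G'.1]
        (u₁ ++ (List.replicate (bs.length - 1 + d) (eT .al) ++ (flat bs).map eT)) :=
      genL_single_iff.2 ⟨_, hγ, (genL_terminals u₁).append hgd⟩
    obtain ⟨v, hv, hvS⟩ := down _ h10
    have h11 : v = List.replicate M .dol ++
        (List.replicate (bs.length - 1 + d) .al ++ flat bs) := by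
      apply eT_inj
      rw [← hv, ← h8]
      simp
    rcases rs_cases hvS with h12 | ⟨t, h12⟩ | ⟨bs'', h12, h13⟩
    · have := congrArg List.length (h11.symm.trans h12)
      simp only [List.length_append, List.length_replicate, List.length_cons,
        List.length_nil] at this
      omega
    · have hlen := congrArg List.length (h11.symm.trans h12)
      have := hM t
      simp only [List.length_append, List.length_replicate, List.length_cons,
        List.length_nil] at hlen
      omega
    · have h14 := List.append_cancel_left (h11.symm.trans h13)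
      have h15 := congrArg cAl h14
      have h16 := congrArg cFin h14
      unfold word at h15 h16
      rw [cAl_append, cAl_append, cAl_repl, cAl_repl, cAl_flat, cAl_flat] at h15
      rw [cFin_append, cFin_append, cFin_repl, cFin_repl, cFin_flat, cFin_flat] at h16
      omega

end neg

end Pool.Agent.Helper91.GH
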