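import Mathlib
import Pool.Agent.Helper91.GH.Differ

/-!
# Family equivalence and finiteness of the set of halting inputs
-/

set_option autoImplicit false

namespace Pool.Agent.Helper91.GH

open Sum Pool.Agent.Helper88.GF

section fin

variable {K Γ Z : Type} [Finite K] [Finite Γ] [Finite Z]

lemma ru_finite (B : ℕ) : {p : Ru K Γ Z | p.2.length ≤ B}.Finite := by
  have h1 : {l : List (N K Z ⊕ Tm K Γ) | l.length ≤ B}.Finite := List.finite_length_le _ B
  have h2 : (Set.univ : Set (N K Z)).Finite := Set.finite_univ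
  refine (h2.prod h1).subset ?_
  rintro ⟨A, β⟩ h
  exact ⟨trivial, h⟩

variable [DecidableEq K] [DecidableEq Γ]

lemma r0_finite (a₀ : Act K Γ) (i : Tm K Γ → ℕ) (M : ℕ) (hM : ∀ t, i t + 4 ≤ M) :
    {p : Ru K Γ Z | R0 Z a₀ i M p}.Finite := by
  refine (ru_finite (M + 4)).subset ?_
  intro p hp
  have hp' : R0 Z a₀ i M p := hp
  cases hp' with
  | frame t h => have := hM t; simp; omega
  | _ => simp

lemma r1_finite (Ctl : Z → Act K Γ → Option Z → Prop) (z₀ : Z) (M : ℕ) :
    {p : Ru K Γ Z | R1 Ctl z₀ M p}.Finite := by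
  refine (ru_finite (M + 4)).subset ?_
  intro p hp
  have hp' : R1 Ctl z₀ M p := hp
  cases hp' <;> simp

end fin

/-- Summary: for a finite control there are a fixed grammar and fixed additional productions such
that, with one more production depending on `pre`, the family of the larger grammar is that of
the smaller one iff only finitely many inputs are accepted. -/
theorem exists_grammars2 {K Γ Z : Type} [DecidableEq K] [DecidableEq Γ] [Finite K] [Finite Γ]
    [Finite Z] (Ctl : Z → Act K Γ → Option Z → Prop) (z₀ : Z) (a₀ : Act K Γ) :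
    ∃ (cS cB : ℕ) (L₀ L : List Pr) (c : Act K Γ → ℕ) (v : List (ℕ ⊕ ℕ)),
      LambdaFree (cS, L₀) ∧ LambdaFree (cS, L ++ L₀) ∧ v ≠ [] ∧ ∀ pre : List (Act K Γ),
        (Fam (cS, (cB, (pre.map c).map Sum.inr ++ v) :: (L ++ L₀)) = Fam (cS, L₀) ↔
          {j : ℕ | Halts Ctl z₀ (pre ++ List.replicate j a₀)}.Finite) := by
  classical
  obtain ⟨nT, ⟨eT'⟩⟩ := Finite.exists_equiv_fin (Tm K Γ)
  obtain ⟨nN, ⟨eN'⟩⟩ := Finite.exists_equiv_fin (N K Z)
  let i : Tm K Γ → ℕ := fun t => (eT' t : ℕ)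
  have hi : Function.Injective i := fun a b h => eT'.injective (Fin.ext h)
  let eN : N K Z → ℕ := fun a => (eN' a : ℕ)
  have hN : Function.Injective eN := fun a b h => eN'.injective (Fin.ext h)
  let M := nT + 4
  have hM : ∀ t, i t + 4 ≤ M := fun t => by
    have := (eT' t).isLt
    simp only [i, M]
    omega
  let L₀ : List Pr := ((r0_finite (Z := Z) a₀ i M hM).image (encR eN i)).toFinset.toList
  have hL₀ : ∀ p, p ∈ L₀ ↔ ∃ q, R0 Z a₀ i M q ∧ encR eN i q = p := by
    intro p
    simp [L₀]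
  let L : List Pr := ((r1_finite Ctl z₀ M).image (encR eN i)).toFinset.toList
  have hL : ∀ p, p ∈ L ↔ ∃ q, R1 Ctl z₀ M q ∧ encR eN i q = p := by
    intro p
    simp [L]
  refine ⟨eN .S, eN .Bl, L₀, L, fun a => i (.lt (some a)), [inl (eN .In)], ?_, ?_, by simp,
    fun pre => ?_⟩
  · intro p hp
    obtain ⟨q, hq, rfl⟩ := (hL₀ p).1 hp
    have := r0_ne hq
    simpa [encR] using this
  · intro p hp
    rcases List.mem_append.1 hp with hp | hp
    · obtain ⟨q, hq, rfl⟩ := (hL p).1 hp
      have := r1_ne hq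
      simpa [encR] using this
    · obtain ⟨q, hq, rfl⟩ := (hL₀ p).1 hp
      have := r0_ne hq
      simpa [encR] using this
  · have ev : (eN .Bl, (pre.map fun a => i (.lt (some a))).map Sum.inr ++ [inl (eN .In)]) =
        encR eN i (vR (Z := Z) pre) := by
      simp [encR, vR, Function.comp_def]
    rw [ev]
    have hG₁ : ∀ p, p ∈ encR eN i (vR (Z := Z) pre) :: (L ++ L₀) ↔
        ∃ q ∈ RP Ctl z₀ pre a₀ i M, encR eN i q = p := by
      intro p
      rw [List.mem_cons, List.mem_append, hL, hL₀]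
      constructor
      · rintro (rfl | ⟨q, hq, rfl⟩ | ⟨q, hq, rfl⟩)
        · exact ⟨_, Or.inr (Or.inr rfl), rfl⟩
        · exact ⟨q, Or.inr (Or.inl hq), rfl⟩
        · exact ⟨q, Or.inl hq, rfl⟩
      · rintro ⟨q, hq | hq | hq, rfl⟩
        · exact Or.inr (Or.inr ⟨q, hq, rfl⟩)
        · exact Or.inr (Or.inl ⟨q, hq, rfl⟩)
        · rw [hq]; exact Or.inl rfl
    constructor
    · intro hfam
      by_contra hinf
      have hfin : (encR eN i '' RS Ctl z₀ pre a₀ i M).Finite := by
        have h1 : {p | p ∈ encR eN i (vR (Z := Z) pre) :: (L ++ L₀)}.Finite :=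
          List.finite_toSet _
        refine h1.subset ?_
        rintro p ⟨q, hq, rfl⟩
        exact (hG₁ _).2 ⟨q, rs_sub hq, rfl⟩
      have hs : ∀ p, p ∈ ((eN .S, hfin.toFinset.toList) : Gram).2 ↔
          ∃ q ∈ RS Ctl z₀ pre a₀ i M, encR eN i q = p := by
        intro p
        simp
      have h2 := fam_neg (Ctl := Ctl) (z₀ := z₀) (pre := pre) hN hi hi hM (eN .S, L₀)
        (eN .S, hfin.toFinset.toList) rfl rfl (fun p hp => (hL₀ p).1 hp) hs hinf
      apply h2
      rw [← hfam]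
      refine ⟨(eN .S, hfin.toFinset.toList), ⟨id, id, rfl, fun p hp => ?_⟩, rfl⟩
      obtain ⟨q, hq, rfl⟩ := (hs p).1 hp
      have h3 := (hG₁ (encR eN i q)).2 ⟨q, rs_sub hq, rfl⟩
      simpa using h3
    · intro hfin
      apply Set.Subset.antisymm
      · exact fam_pos (Ctl := Ctl) (z₀ := z₀) (pre := pre) (a₀ := a₀) (i := i) (M := M) hN
          (eN .S, L₀) (eN .S, encR eN i (vR (Z := Z) pre) :: (L ++ L₀)) rfl rfl hL₀
          (fun p hp => (hG₁ p).1 hp) hfin
      · exact fam_mono fun p hp => List.mem_cons_of_mem _ (List.mem_append_right _ hp)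

end Pool.Agent.Helper91.GH
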