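import Mathlib
import Pool.Agent.Helper91.GH.Main
import Pool.Agent.Helper88.GH.NotRE

/-!
# Family equivalence is hard for the second level of the arithmetical hierarchy
-/

set_option autoImplicit false

namespace Pool.Agent.Helper91.GH

open Pool.Agent.Helper88.GF Pool.Agent.Helper88.GH

/-- Consequence for recursively enumerable sets of pairs of grammars. -/
theorem pairs_of {S B : ℕ} {P₀ P₁ : List (ℕ × List (ℕ ⊕ ℕ))}
    (h : ∀ R : ℕ → ℕ → ℕ → Prop, ComputablePred (fun t : ℕ × ℕ × ℕ => R t.1 t.2.1 t.2.2) →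
      ∃ β : ℕ → List (ℕ ⊕ ℕ), Computable β ∧ (∀ n, β n ≠ []) ∧
        ∀ n, (∃ x, ∀ y, R n x y) ↔ Fam (S, (B, β n) :: P₁) = Fam (S, P₀))
    (p : Gram × Gram → Prop) (hp : REPred p) :
    (∃ β : List (ℕ ⊕ ℕ), β ≠ [] ∧
      ¬ (p ((S, (B, β) :: P₁), (S, P₀)) ↔ Fam (S, (B, β) :: P₁) = Fam (S, P₀))) ∧
    (∃ β : List (ℕ ⊕ ℕ), β ≠ [] ∧
      ¬ (p ((S, (B, β) :: P₁), (S, P₀)) ↔ Fam (S, (B, β) :: P₁) ≠ Fam (S, P₀))) := by
  have hF : Computable (fun β : List (ℕ ⊕ ℕ) => (((S, (B, β) :: P₁), (S, P₀)) : Gram × Gram)) := by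
    have h1 : Primrec (fun β : List (ℕ ⊕ ℕ) =>
        (((S, (B, β) :: P₁), (S, P₀)) : Gram × Gram)) :=
      Primrec.pair (Primrec.pair (Primrec.const S) (Primrec.list_cons.comp
        (Primrec.pair (Primrec.const B) Primrec.id) (Primrec.const P₁))) (Primrec.const (S, P₀))
    exact h1.to_comp
  have hre : REPred (fun β : List (ℕ ⊕ ℕ) => p ((S, (B, β) :: P₁), (S, P₀))) :=
    Partrec.comp hp hF
  constructor
  · by_contra hcon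
    push Not at hcon
    refine (not_re_of_sigma (Q := fun β : List (ℕ ⊕ ℕ) => p ((S, (B, β) :: P₁), (S, P₀)))
      fun R hR => ?_).1 hre
    obtain ⟨β, h1, h2, h3⟩ := h R hR
    exact ⟨β, h1, fun n => by rw [hcon (β n) (h2 n)]; exact h3 n⟩
  · by_contra hcon
    push Not at hcon
    refine (not_re_of_sigma (Q := fun β : List (ℕ ⊕ ℕ) => ¬ p ((S, (B, β) :: P₁), (S, P₀)))
      fun R hR => ?_).2 (hre.of_eq fun β => not_not.symm)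
    obtain ⟨β, h1, h2, h3⟩ := h R hR
    exact ⟨β, h1, fun n => by rw [hcon (β n) (h2 n), not_not]; exact h3 n⟩

/-- Family equivalence with a fixed grammar is hard for `Σ₂`. -/
theorem main : ∃ (S B : ℕ) (P₀ P₁ : List (ℕ × List (ℕ ⊕ ℕ))),
    LambdaFree (S, P₀) ∧ LambdaFree (S, P₁) ∧ P₀ ⊆ P₁ ∧
    (∀ R : ℕ → ℕ → ℕ → Prop, ComputablePred (fun t : ℕ × ℕ × ℕ => R t.1 t.2.1 t.2.2) →
      ∃ β : ℕ → List (ℕ ⊕ ℕ), Computable β ∧ (∀ n, β n ≠ []) ∧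
        ∀ n, (∃ x, ∀ y, R n x y) ↔ Fam (S, (B, β n) :: P₁) = Fam (S, P₀)) ∧
    ∀ p : Gram × Gram → Prop, REPred p →
      (∃ β : List (ℕ ⊕ ℕ), β ≠ [] ∧
        ¬ (p ((S, (B, β) :: P₁), (S, P₀)) ↔ Fam (S, (B, β) :: P₁) = Fam (S, P₀))) ∧
      (∃ β : List (ℕ ⊕ ℕ), β ≠ [] ∧
        ¬ (p ((S, (B, β) :: P₁), (S, P₀)) ↔ Fam (S, (B, β) :: P₁) ≠ Fam (S, P₀))) := by
  obtain ⟨S, B, P₀, P₁, h0, h1, h2, h3⟩ := main_of fun Z hZ Ctl z₀ a₀ =>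
    exists_grammars2 Ctl z₀ a₀
  exact ⟨S, B, P₀, P₁, h0, h1, h2, h3, pairs_of h3⟩

end Pool.Agent.Helper91.GH
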